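import Pool.Agent.Helper255.GC.Pair

/-! The average loss over pairs of prime pairs. -/

set_option autoImplicit false

open Finset

namespace Pool.Agent.Helper255.GC

open Pool.Agent.H373R2.T7 (pz mem_pz PerB nuB sys_fund Vz Vz_low ev_log' ev_L')
open Pool.Agent.TH935.DF (HC cc)
open Pool.Agent.W93.PP (Cnt cnt_eq)
open Pool.Agent.H560R3.GB (sing)
open Pool.Agent.W93.GB (one_le_sing)

lemma cnt_mul (q l h : ℕ) (hq : 1 ≤ q) (hl : l.Prime) (hl5 : 5 ≤ l) (hlq : ¬ l ∣ q) :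
    (Cnt q h : ℝ) * ((l : ℝ) - 2) ≤ Cnt (q * l) h := by
  classical
  have hco : Nat.Coprime q l := ((Nat.Prime.coprime_iff_not_dvd hl).2 hlq).symm
  have hlr : (5 : ℝ) ≤ l := by exact_mod_cast hl5
  rw [cnt_eq (q * l) h (Nat.mul_pos (by omega) hl.pos), cnt_eq q h hq, hco.primeFactors_mul,
    prod_union hco.disjoint_primeFactors, Nat.Prime.primeFactors hl, prod_singleton, Nat.totient_mul hco,
    Nat.totient_prime hl]
  push_cast
  rw [Nat.cast_sub hl.one_le, Nat.cast_one]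
  obtain ⟨A, hA⟩ : ∃ A, A = ∏ p ∈ q.primeFactors, (if p ∣ h then (1 : ℝ) else (1 - 1 / ((p : ℝ) - 1))) := ⟨_, rfl⟩
  rw [← hA]
  have hA0 : 0 ≤ A := by
    rw [hA]
    apply prod_nonneg
    intro p hp
    split_ifs
    · norm_num
    · have hp2 : (2 : ℝ) ≤ p := by exact_mod_cast (Nat.prime_of_mem_primeFactors hp).two_le
      have : 1 / ((p : ℝ) - 1) ≤ 1 := by
        rw [div_le_one (by linarith)]
        linarith
      linarith
  have hφ : (0 : ℝ) ≤ Nat.totient q := Nat.cast_nonneg _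
  have hX : ((l : ℝ) - 2) ≤ ((l : ℝ) - 1) * (if l ∣ h then (1 : ℝ) else (1 - 1 / ((l : ℝ) - 1))) := by
    split_ifs
    · linarith
    · have : ((l : ℝ) - 1) * (1 - 1 / ((l : ℝ) - 1)) = l - 2 := by
        have : (l : ℝ) - 1 ≠ 0 := by linarith
        field_simp
        ring
      rw [this]
  calc (Nat.totient q : ℝ) * A * ((l : ℝ) - 2)
      ≤ (Nat.totient q : ℝ) * A * (((l : ℝ) - 1) * (if l ∣ h then (1 : ℝ) else (1 - 1 / ((l : ℝ) - 1)))) :=
        mul_le_mul_of_nonneg_left hX (by positivity)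
    _ = _ := by ring

open Classical in
/-- the prime pairs -/
noncomputable def TT (q c h y₁ y₂ : ℕ) : Finset ℕ :=
  (Ioc y₁ y₂).filter (fun p : ℕ => p.Prime ∧ (p + h).Prime ∧ p ≡ c [MOD q])

lemma TT_card (q c h y₁ y₂ : ℕ) : (TT q c h y₁ y₂).card = cc q c h y₁ y₂ := rfl

/-- the number of prime pairs in one class -/
lemma class_le (q c h y₁ y₂ n l : ℕ) (hq : 1 ≤ q) (hl : l.Prime) (hl5 : 5 ≤ l) (hlq : ¬ l ∣ q)
    (hql : ((q * l : ℕ) : ℝ) ≤ Real.log n ^ 5) (hly : l ≤ y₁) (hy : y₁ < y₂) (hyn : y₂ ≤ n)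
    (hlen : (n : ℝ) / Real.log n ^ 1 ≤ (y₂ : ℝ) - y₁) (hn : 1 < Real.log n)
    (hc : Nat.Coprime c q) (hch : Nat.Coprime (c + h) q) (hHC : HC (1 / 2) 1 5 1 n h) (e : ℤ) :
    (((TT q c h y₁ y₂).filter (fun p : ℕ => (l : ℤ) ∣ (p : ℤ) - e)).card : ℝ) ≤ 5 * ((TT q c h y₁ y₂).card : ℝ) / l := by
  classical
  have hlr : (5 : ℝ) ≤ l := by exact_mod_cast hl5
  rcases ((TT q c h y₁ y₂).filter (fun p : ℕ => (l : ℤ) ∣ (p : ℤ) - e)).eq_empty_or_nonempty with h0 | ⟨p₀, hp₀⟩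
  · rw [h0, card_empty, Nat.cast_zero]
    positivity
  rw [mem_filter] at hp₀
  obtain ⟨hp₀T, hp₀e⟩ := hp₀
  have hp₀T' := hp₀T
  unfold TT at hp₀T'
  rw [mem_filter, mem_Ioc] at hp₀T'
  obtain ⟨⟨hy1, hy2⟩, hpr, hprh, hmod⟩ := hp₀T'
  have hco : Nat.Coprime q l := ((Nat.Prime.coprime_iff_not_dvd hl).2 hlq).symm
  have hc1 : Nat.Coprime p₀ q := by
    have := hmod.gcd_eq
    unfold Nat.Coprime at hc ⊢
    rw [this, hc]
  have hc2 : Nat.Coprime (p₀ + h) q := by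
    have := (hmod.add_right h).gcd_eq
    unfold Nat.Coprime at hch ⊢
    rw [this, hch]
  have hc3 : Nat.Coprime p₀ l := (Nat.coprime_primes hpr hl).2 (by omega)
  have hc4 : Nat.Coprime (p₀ + h) l := (Nat.coprime_primes hprh hl).2 (by omega)
  have hsub : ((TT q c h y₁ y₂).filter (fun p : ℕ => (l : ℤ) ∣ (p : ℤ) - e)).card ≤ cc (q * l) p₀ h y₁ y₂ := by
    unfold cc
    apply card_le_card
    intro p hp
    rw [mem_filter] at hp
    obtain ⟨hpT, hpe⟩ := hp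
    unfold TT at hpT
    rw [mem_filter] at hpT ⊢
    refine ⟨hpT.1, hpT.2.1, hpT.2.2.1, ?_⟩
    rw [← Nat.modEq_and_modEq_iff_modEq_mul hco]
    refine ⟨hpT.2.2.2.trans hmod.symm, ?_⟩
    rw [← Int.natCast_modEq_iff]
    apply Int.ModEq.symm
    rw [Int.modEq_iff_dvd]
    have := dvd_sub hpe hp₀e
    have e1 : (p : ℤ) - e - (p₀ - e) = p - p₀ := by ring
    rwa [e1] at this
  have h1 := hHC (q * l) p₀ (Nat.mul_pos (by omega) hl.pos) hql (Nat.Coprime.mul_right hc1 hc3)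
    (Nat.Coprime.mul_right hc2 hc4) y₁ y₂ hy (by omega) hlen
  have hq5 : (q : ℝ) ≤ Real.log n ^ 5 := by
    refine le_trans ?_ hql
    push_cast
    have : (0 : ℝ) ≤ q := Nat.cast_nonneg _
    nlinarith
  have h2 := hHC q c hq hq5 hc hch y₁ y₂ hy (by omega) hlen
  rw [abs_le] at h1 h2
  obtain ⟨S, hS⟩ : ∃ S, S = sing h * ((y₂ : ℝ) - y₁) := ⟨_, rfl⟩
  rw [← hS] at h1 h2
  have hyr : (0 : ℝ) < (y₂ : ℝ) - y₁ := by
    have : (y₁ : ℝ) < y₂ := by exact_mod_cast hy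
    linarith
  have hS0 : 0 < S := by
    rw [hS]
    have := one_le_sing h
    positivity
  have hL0 : 0 < Real.log n ^ 2 := by positivity
  have hcq : (0 : ℝ) < Cnt q h := by exact_mod_cast Pool.Agent.TH935.DF.cnt_pos q c h hq hc hch
  have hcl := cnt_mul q l h hq hl hl5 hlq
  have hcl0 : (0 : ℝ) < (Cnt q h : ℝ) * ((l : ℝ) - 2) := mul_pos hcq (by linarith)
  have h3 : S / (Cnt (q * l) h * Real.log n ^ 2) ≤ S / (Cnt q h * Real.log n ^ 2) / ((l : ℝ) - 2) := by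
    rw [div_div]
    apply div_le_div_of_nonneg_left hS0.le
    · have : (0 : ℝ) < (l : ℝ) - 2 := by linarith
      positivity
    · calc (Cnt q h : ℝ) * Real.log n ^ 2 * ((l : ℝ) - 2) = (Cnt q h : ℝ) * ((l : ℝ) - 2) * Real.log n ^ 2 := by ring
        _ ≤ _ := mul_le_mul_of_nonneg_right hcl hL0.le
  obtain ⟨M, hM⟩ : ∃ M, M = S / (Cnt q h * Real.log n ^ 2) := ⟨_, rfl⟩
  rw [← hM] at h2 h3
  have hM0 : 0 < M := by rw [hM]; positivity
  have h4 : M ≤ 2 * (cc q c h y₁ y₂ : ℝ) := by linarith [h2.1]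
  have h5 : (cc (q * l) p₀ h y₁ y₂ : ℝ) ≤ 3 / 2 * (M / ((l : ℝ) - 2)) := by linarith [h1.2]
  have h6 : (((TT q c h y₁ y₂).filter (fun p : ℕ => (l : ℤ) ∣ (p : ℤ) - e)).card : ℝ) ≤ (cc (q * l) p₀ h y₁ y₂ : ℝ) := by
    exact_mod_cast hsub
  refine h6.trans (h5.trans ?_)
  rw [TT_card]
  obtain ⟨t, ht⟩ : ∃ t : ℝ, t = (cc q c h y₁ y₂ : ℝ) := ⟨_, rfl⟩
  rw [← ht] at h4 ⊢
  have hl2 : (0 : ℝ) < (l : ℝ) - 2 := by linarith
  have ht0 : 0 ≤ t := by linarith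
  rw [show 3 / 2 * (M / ((l : ℝ) - 2)) = (3 * M) / (2 * ((l : ℝ) - 2)) by field_simp, div_le_div_iff₀ (by positivity) (by linarith)]
  calc 3 * M * l ≤ 3 * (2 * t) * l := by gcongr
    _ ≤ 5 * t * (2 * ((l : ℝ) - 2)) := by nlinarith

/-- the number of pairs with a common class -/
lemma col_count (T : Finset ℕ) (h l : ℕ) (K : ℝ)
    (hK : ∀ e : ℤ, ((T.filter (fun p : ℕ => (l : ℤ) ∣ (p : ℤ) - e)).card : ℝ) ≤ K) [∀ p p', Decidable (Col h p p' l)] :
    (∑ p ∈ T, ((T.filter (fun p' : ℕ => Col h p p' l)).card : ℝ)) ≤ 3 * T.card * K := by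
  classical
  have h1 : ∀ p ∈ T, ((T.filter (fun p' : ℕ => Col h p p' l)).card : ℝ) ≤ 3 * K := by
    intro p _
    have h2 : T.filter (fun p' : ℕ => Col h p p' l) ⊆
        T.filter (fun p' : ℕ => (l : ℤ) ∣ (p' : ℤ) - (p : ℤ)) ∪
          (T.filter (fun p' : ℕ => (l : ℤ) ∣ (p' : ℤ) - ((p : ℤ) - h)) ∪
            T.filter (fun p' : ℕ => (l : ℤ) ∣ (p' : ℤ) - ((p : ℤ) + h))) := by
      intro p' hp'
      rw [mem_filter] at hp'
      obtain ⟨hT, hcol⟩ := hp'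
      unfold Col at hcol
      rw [mem_union, mem_union, mem_filter, mem_filter, mem_filter]
      rcases hcol with h3 | h3 | h3
      · left
        refine ⟨hT, ?_⟩
        rw [← dvd_neg]
        have e : -((p' : ℤ) - p) = p - p' := by ring
        rwa [e]
      · right; left
        refine ⟨hT, ?_⟩
        rw [← dvd_neg]
        have e : -((p' : ℤ) - (p - h)) = p - p' - h := by ring
        rwa [e]
      · right; right
        refine ⟨hT, ?_⟩
        rw [← dvd_neg]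
        have e : -((p' : ℤ) - (p + h)) = p - p' + h := by ring
        rwa [e]
    have h3 := card_le_card h2
    have h4 := card_union_le (T.filter (fun p' : ℕ => (l : ℤ) ∣ (p' : ℤ) - (p : ℤ)))
      (T.filter (fun p' : ℕ => (l : ℤ) ∣ (p' : ℤ) - ((p : ℤ) - h)) ∪
            T.filter (fun p' : ℕ => (l : ℤ) ∣ (p' : ℤ) - ((p : ℤ) + h)))
    have h5 := card_union_le (T.filter (fun p' : ℕ => (l : ℤ) ∣ (p' : ℤ) - ((p : ℤ) - h)))
            (T.filter (fun p' : ℕ => (l : ℤ) ∣ (p' : ℤ) - ((p : ℤ) + h)))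
    have h6 : (T.filter (fun p' : ℕ => Col h p p' l)).card ≤ (T.filter (fun p' : ℕ => (l : ℤ) ∣ (p' : ℤ) - (p : ℤ))).card +
        ((T.filter (fun p' : ℕ => (l : ℤ) ∣ (p' : ℤ) - ((p : ℤ) - h))).card +
          (T.filter (fun p' : ℕ => (l : ℤ) ∣ (p' : ℤ) - ((p : ℤ) + h))).card) := by omega
    have h7 : ((T.filter (fun p' : ℕ => Col h p p' l)).card : ℝ) ≤ ((T.filter (fun p' : ℕ => (l : ℤ) ∣ (p' : ℤ) - (p : ℤ))).card : ℝ) +
        (((T.filter (fun p' : ℕ => (l : ℤ) ∣ (p' : ℤ) - ((p : ℤ) - h))).card : ℝ) +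
          ((T.filter (fun p' : ℕ => (l : ℤ) ∣ (p' : ℤ) - ((p : ℤ) + h))).card : ℝ)) := by exact_mod_cast h6
    linarith [hK (p : ℤ), hK ((p : ℤ) - h), hK ((p : ℤ) + h)]
  calc (∑ p ∈ T, ((T.filter (fun p' : ℕ => Col h p p' l)).card : ℝ)) ≤ ∑ p ∈ T, 3 * K := sum_le_sum h1
    _ = 3 * T.card * K := by rw [sum_const, nsmul_eq_mul]; ring

lemma tail_sum (w z : ℕ) (hw : 1 ≤ w) (hz : w ≤ z) :
    ∑ l ∈ Ioc w z, 1 / ((l : ℝ) * √(l : ℝ)) ≤ 2 / √(w : ℝ) - 2 / √(z : ℝ) := by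
  induction z, hz using Nat.le_induction with
  | base => simp
  | succ z hz ih =>
    rw [sum_Ioc_succ_top (by omega)]
    have hz0 : (0 : ℝ) < z := by exact_mod_cast (by omega : 0 < z)
    obtain ⟨a, ha⟩ : ∃ a, a = √(z : ℝ) := ⟨_, rfl⟩
    obtain ⟨b, hb⟩ : ∃ b, b = √((z + 1 : ℕ) : ℝ) := ⟨_, rfl⟩
    have ha0 : 0 < a := by rw [ha]; exact Real.sqrt_pos.2 hz0
    have haa : a * a = z := by rw [ha]; exact Real.mul_self_sqrt hz0.le
    have hbb : b * b = z + 1 := by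
      rw [hb, Real.mul_self_sqrt (by positivity)]
      push_cast
      ring
    have hb0 : 0 < b := by rw [hb]; exact Real.sqrt_pos.2 (by positivity)
    have hab : a ≤ b := by rw [ha, hb]; exact Real.sqrt_le_sqrt (by push_cast; linarith)
    rw [← ha] at ih
    rw [← hb]
    have e1 : (((z + 1 : ℕ) : ℝ)) = b * b := by rw [hbb]; push_cast; ring
    rw [e1]
    have key : 1 / (b * b * b) ≤ 2 / a - 2 / b := by
      rw [div_sub_div _ _ ha0.ne' hb0.ne', div_le_div_iff₀ (by positivity) (by positivity)]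
      have h1 : (b - a) * (b + a) = 1 := by nlinarith
      have h2 : 1 ≤ (b - a) * (2 * b) := by nlinarith
      have h3 : 0 ≤ b - a := by linarith
      nlinarith [mul_pos ha0 hb0, mul_pos hb0 hb0, mul_nonneg h3 (mul_pos ha0 hb0).le]
    linarith

/-- number of large primes dividing a number -/
lemma few_primes (A : Finset ℕ) (m : ℕ) (hm : 0 < m) (hA : ∀ l ∈ A, l.Prime ∧ l ∣ m) : 2 ^ A.card ≤ m := by
  have h1 : ∏ l ∈ A, l ∣ m := by
    apply Finset.prod_primes_dvd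
    · intro l hl
      exact (hA l hl).1.prime
    · intro l hl
      exact (hA l hl).2
  calc 2 ^ A.card = ∏ l ∈ A, 2 := by rw [prod_const]
    _ ≤ ∏ l ∈ A, l := prod_le_prod' (fun l hl => (hA l hl).1.two_le)
    _ ≤ m := Nat.le_of_dvd hm h1

end Pool.Agent.Helper255.GC
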