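import Pool.Agent.Helper255.GC.Avg

/-! The average loss over pairs of prime pairs: the theorem. -/

set_option autoImplicit false

open Finset

namespace Pool.Agent.Helper255.GC

open Pool.Agent.H373R2.T7 (pz mem_pz PerB nuB sys_fund Vz Vz_low ev_log' ev_L')
open Pool.Agent.TH935.DF (HC cc)
open Pool.Agent.W93.PP (Cnt cnt_eq)
open Pool.Agent.H560R3.GB (sing)
open Pool.Agent.W93.GB (one_le_sing)

/-- special pairs -/
def Sp (h p p' : ℕ) : Prop := p' = p ∨ p' + h = p ∨ p' = p + h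

lemma card_lower (q c h y₁ y₂ n : ℕ) (hq : 1 ≤ q) (hqL : (q : ℝ) ≤ Real.log n ^ 5)
    (hy : y₁ < y₂) (hyn : y₂ ≤ n) (hlen : (n : ℝ) / Real.log n ^ 1 ≤ (y₂ : ℝ) - y₁) (hn : 1 < Real.log n)
    (hc : Nat.Coprime c q) (hch : Nat.Coprime (c + h) q) (hHC : HC (1 / 2) 1 5 1 n h) :
    ((y₂ : ℝ) - y₁) / (2 * q * Real.log n ^ 2) ≤ ((TT q c h y₁ y₂).card : ℝ) := by
  rw [TT_card]
  have h2 := hHC q c hq hqL hc hch y₁ y₂ hy (by omega) hlen
  rw [abs_le] at h2
  have hL0 : 0 < Real.log n ^ 2 := by positivity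
  have hcq : (0 : ℝ) < Cnt q h := by exact_mod_cast Pool.Agent.TH935.DF.cnt_pos q c h hq hc hch
  have hcqle : (Cnt q h : ℝ) ≤ q := by
    have : Cnt q h ≤ q := by
      unfold Cnt
      exact (card_filter_le _ _).trans (by rw [card_range])
    exact_mod_cast this
  have hyr : (0 : ℝ) < (y₂ : ℝ) - y₁ := by
    have : (y₁ : ℝ) < y₂ := by exact_mod_cast hy
    linarith
  have hs := one_le_sing h
  have hqr : (0 : ℝ) < q := by exact_mod_cast (by omega : 0 < q)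
  have h3 : ((y₂ : ℝ) - y₁) / (q * Real.log n ^ 2) ≤ sing h * ((y₂ : ℝ) - y₁) / (Cnt q h * Real.log n ^ 2) := by
    rw [div_le_div_iff₀ (by positivity) (by positivity)]
    calc ((y₂ : ℝ) - y₁) * (Cnt q h * Real.log n ^ 2) ≤ ((y₂ : ℝ) - y₁) * (q * Real.log n ^ 2) := by gcongr
      _ = 1 * ((y₂ : ℝ) - y₁) * (q * Real.log n ^ 2) := by ring
      _ ≤ sing h * ((y₂ : ℝ) - y₁) * (q * Real.log n ^ 2) := by gcongr
  have h4 : ((y₂ : ℝ) - y₁) / (2 * q * Real.log n ^ 2) = 1 / 2 * (((y₂ : ℝ) - y₁) / (q * Real.log n ^ 2)) := by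
    field_simp
  rw [h4]
  linarith [h2.1]

open Classical in
/-- pointwise bound -/
lemma FF_point (w z h p p' n D : ℕ) (hw : 4 ≤ w) (hwn : w < n) (hzn : z ≤ n) (hn : 8 ≤ n) (hp : p ≤ n) (hp' : p' ≤ n)
    (hh : h ≤ n) (hh0 : 0 < h) (hD : 0 < D)
    (hA : ∀ y : ℕ, w < y → ∏ l ∈ (PP w z).filter (fun l => l ≤ y), aa l ≤ √(y : ℝ)) :
    FF w z h p p' ≤ 1 + ∑ l ∈ (PP w z).filter (fun l => l ≤ D), (if Col h p p' l then 9 / √(l : ℝ) else 0) +
      54 * Real.log n / √(D : ℝ) + (if Sp h p p' then √(n : ℝ) else 0) := by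
  have hnr : (8 : ℝ) ≤ n := by exact_mod_cast hn
  have hL : 0 < Real.log n := Real.log_pos (by linarith)
  have hD0 : (0 : ℝ) < D := by exact_mod_cast hD
  have hsum0 : 0 ≤ ∑ l ∈ (PP w z).filter (fun l => l ≤ D), (if Col h p p' l then 9 / √(l : ℝ) else 0) := by
    apply sum_nonneg
    intro l _
    split_ifs <;> positivity
  by_cases hs : Sp h p p'
  · rw [if_pos hs]
    have h1 : FF w z h p p' ≤ √(n : ℝ) := by
      unfold FF
      refine le_trans (prod_mono_sub _ ((PP w z).filter (fun j => j ≤ n)) ?_ aa ?_) (hA n hwn)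
      · intro j hj
        rw [mem_filter] at hj ⊢
        refine ⟨hj.1, ?_⟩
        have := (mem_PP.1 hj.1).1.1
        omega
      · intro j hj
        rw [mem_filter, mem_PP] at hj
        exact one_le_aa j (by omega)
    have h2 : 0 ≤ 54 * Real.log n / √(D : ℝ) := by positivity
    linarith
  · rw [if_neg hs, add_zero]
    refine (FF_le w z h p p' hw hA).trans ?_
    have h1 : ∑ l ∈ (PP w z).filter (fun l => Col h p p' l), 9 / √(l : ℝ) =
        ∑ l ∈ (PP w z).filter (fun l => l ≤ D), (if Col h p p' l then 9 / √(l : ℝ) else 0) +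
          ∑ l ∈ ((PP w z).filter (fun l => Col h p p' l)).filter (fun l => ¬ l ≤ D), 9 / √(l : ℝ) := by
      rw [← sum_filter_add_sum_filter_not ((PP w z).filter (fun l => Col h p p' l)) (fun l => l ≤ D)]
      congr 1
      rw [← sum_filter]
      apply sum_congr _ (fun _ _ => rfl)
      ext l
      simp only [mem_filter]
      tauto
    rw [h1]
    obtain ⟨A, hAd⟩ : ∃ A, A = ((PP w z).filter (fun l => Col h p p' l)).filter (fun l => ¬ l ≤ D) := ⟨_, rfl⟩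
    rw [← hAd]
    obtain ⟨m, hm⟩ : ∃ m : ℕ, m = (((p : ℤ) - p') * (((p : ℤ) - p' - h) * ((p : ℤ) - p' + h))).natAbs := ⟨_, rfl⟩
    have hm0 : 0 < m := by
      rw [hm, Int.natAbs_pos]
      unfold Sp at hs
      push Not at hs
      obtain ⟨s1, s2, s3⟩ := hs
      refine mul_ne_zero ?_ (mul_ne_zero ?_ ?_)
      · intro h0
        exact s1 (by omega)
      · intro h0
        exact s2 (by omega)
      · intro h0
        exact s3 (by omega)
    have hmA : ∀ l ∈ A, l.Prime ∧ l ∣ m := by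
      intro l hl
      rw [hAd, mem_filter, mem_filter, mem_PP] at hl
      refine ⟨hl.1.1.1.2, ?_⟩
      rw [hm, ← Int.natCast_dvd]
      rcases hl.1.2 with h3 | h3 | h3
      · exact Dvd.dvd.mul_right h3 _
      · exact Dvd.dvd.mul_left (Dvd.dvd.mul_right h3 _) _
      · exact Dvd.dvd.mul_left (Dvd.dvd.mul_left h3 _) _
    have h2 := few_primes A m hm0 hmA
    have hmn : m ≤ n ^ 4 := by
      have a1 : ((p : ℤ) - p').natAbs ≤ n := by omega
      have a2 : ((p : ℤ) - p' - h).natAbs ≤ 2 * n := by omega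
      have a3 : ((p : ℤ) - p' + h).natAbs ≤ 2 * n := by omega
      calc m = ((p : ℤ) - p').natAbs * (((p : ℤ) - p' - h).natAbs * ((p : ℤ) - p' + h).natAbs) := by
            rw [hm, Int.natAbs_mul, Int.natAbs_mul]
        _ ≤ n * ((2 * n) * (2 * n)) := Nat.mul_le_mul a1 (Nat.mul_le_mul a2 a3)
        _ = 4 * n ^ 3 := by ring
        _ ≤ n * n ^ 3 := Nat.mul_le_mul_right _ (by omega)
        _ = n ^ 4 := by ring
    have h3 : (A.card : ℝ) ≤ 6 * Real.log n := by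
      have h4 : ((2 : ℝ)) ^ A.card ≤ (n : ℝ) ^ 4 := by exact_mod_cast h2.trans hmn
      have h5 := Real.log_le_log (by positivity) h4
      rw [Real.log_pow, Real.log_pow] at h5
      have h6 := Real.log_two_gt_d9
      have h7 : (0 : ℝ) ≤ A.card := Nat.cast_nonneg _
      push_cast at h5
      nlinarith
    have h4 : ∑ l ∈ A, 9 / √(l : ℝ) ≤ 54 * Real.log n / √(D : ℝ) := by
      calc ∑ l ∈ A, 9 / √(l : ℝ) ≤ ∑ l ∈ A, 9 / √(D : ℝ) := by
            apply sum_le_sum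
            intro l hl
            rw [hAd, mem_filter] at hl
            have hlD : (D : ℝ) ≤ l := by exact_mod_cast (by omega : D ≤ l)
            apply div_le_div_of_nonneg_left (by norm_num) (Real.sqrt_pos.2 hD0)
            exact Real.sqrt_le_sqrt hlD
        _ = A.card * (9 / √(D : ℝ)) := by rw [sum_const, nsmul_eq_mul]
        _ ≤ (6 * Real.log n) * (9 / √(D : ℝ)) := mul_le_mul_of_nonneg_right h3 (by positivity)
        _ = _ := by ring
    linarith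

theorem avg (ε : ℝ) (hε : 0 < ε) : ∃ w₁ : ℕ, 4 ≤ w₁ ∧ ∀ w : ℕ, w₁ ≤ w → ∀ q : ℕ, 1 ≤ q →
    (∀ l : ℕ, l.Prime → w < l → ¬ l ∣ q) → ∀ δ : ℝ, 0 < δ → ∃ n₀ : ℕ, ∀ n : ℕ, n₀ ≤ n →
    ∀ z h c y₁ y₂ : ℕ, z ≤ n → 0 < h → h ≤ n → Nat.Coprime c q → Nat.Coprime (c + h) q → y₁ < y₂ → y₂ ≤ n →
    δ * n ≤ y₁ → δ * n ≤ (y₂ : ℝ) - y₁ → HC (1 / 2) 1 5 1 n h →
    0 < (TT q c h y₁ y₂).card ∧
      ∑ p ∈ TT q c h y₁ y₂, ∑ p' ∈ TT q c h y₁ y₂, FF w z h p p' ≤ (1 + ε) * ((TT q c h y₁ y₂).card : ℝ) ^ 2 := by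
  classical
  obtain ⟨w₀, hw₀, hA⟩ := aa_prod
  refine ⟨max w₀ ⌈(810 / ε) ^ 2⌉₊, hw₀.trans (le_max_left _ _), ?_⟩
  intro w hw q hq hql δ hδ
  have hw0 : w₀ ≤ w := (le_max_left _ _).trans hw
  have hw4 : 4 ≤ w := hw₀.trans hw0
  have hwr : (4 : ℝ) ≤ w := by exact_mod_cast hw4
  have hwε : 270 / √(w : ℝ) ≤ ε / 3 := by
    have h1 : (810 / ε) ^ 2 ≤ (w : ℝ) := by
      have h2 : ⌈(810 / ε) ^ 2⌉₊ ≤ w := (le_max_right _ _).trans hw
      exact (Nat.le_ceil _).trans (by exact_mod_cast h2)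
    have h2 : 810 / ε ≤ √(w : ℝ) := Real.le_sqrt_of_sq_le h1
    have hs : 0 < √(w : ℝ) := Real.sqrt_pos.2 (by linarith)
    rw [div_le_iff₀ hε] at h2
    rw [div_le_iff₀ hs]
    linarith
  obtain ⟨n1, hn1⟩ := ev_L' (max (q : ℝ) (max (1 / δ) (max 2 (324 / ε))))
  obtain ⟨n2, hn2⟩ := ev_log' 4 (1 / δ)
  obtain ⟨n3, hn3⟩ := ev_log' 2 (18 * q / (ε * δ))
  refine ⟨max (max n1 n2) (max n3 (max (w + 1) 8)), ?_⟩
  intro n hn z h c y₁ y₂ hz hh0 hh hc hch hy hyn hδ1 hδ2 hHC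
  have b1 : n1 ≤ n := ((le_max_left _ _).trans (le_max_left _ _)).trans hn
  have b2 : n2 ≤ n := ((le_max_right _ _).trans (le_max_left _ _)).trans hn
  have b3 : n3 ≤ n := ((le_max_left _ _).trans (le_max_right _ _)).trans hn
  have b4 : w + 1 ≤ n := ((le_max_left _ _).trans ((le_max_right _ _).trans (le_max_right _ _))).trans hn
  have b5 : 8 ≤ n := ((le_max_right _ _).trans ((le_max_right _ _).trans (le_max_right _ _))).trans hn
  obtain ⟨L, hL⟩ : ∃ L, L = Real.log (n : ℝ) := ⟨_, rfl⟩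
  have a1 := hn1 n b1
  have a2 := hn2 n b2
  have a3 := hn3 n b3
  rw [← hL] at a1 a2 a3
  have c1 : (q : ℝ) ≤ L := (le_max_left _ _).trans a1
  have c2 : 1 / δ ≤ L := ((le_max_left _ _).trans (le_max_right _ _)).trans a1
  have c3 : 2 ≤ L := ((le_max_left _ _).trans ((le_max_right _ _).trans (le_max_right _ _))).trans a1
  have c4 : 324 / ε ≤ L := ((le_max_right _ _).trans ((le_max_right _ _).trans (le_max_right _ _))).trans a1
  have hL0 : 0 < L := by linarith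
  have hnr : (8 : ℝ) ≤ n := by exact_mod_cast b5
  have hn0 : (0 : ℝ) < n := by linarith
  have hsn : √(n : ℝ) * √(n : ℝ) = n := Real.mul_self_sqrt hn0.le
  have hs0 : 0 < √(n : ℝ) := Real.sqrt_pos.2 hn0
  have hs1 : 1 ≤ √(n : ℝ) := by
    rw [Real.one_le_sqrt]
    linarith
  have hqr : (1 : ℝ) ≤ q := by exact_mod_cast hq
  obtain ⟨D, hD⟩ : ∃ D : ℕ, D = ⌊L ^ 4⌋₊ := ⟨_, rfl⟩
  have hDle : (D : ℝ) ≤ L ^ 4 := by rw [hD]; exact Nat.floor_le (by positivity)
  have hDge : L ^ 4 / 4 ≤ (D : ℝ) := by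
    have h1 : L ^ 4 < (D : ℝ) + 1 := by rw [hD]; exact Nat.lt_floor_add_one _
    have h2 : (16 : ℝ) ≤ L ^ 4 := by
      calc (16 : ℝ) = 2 ^ 4 := by norm_num
        _ ≤ L ^ 4 := pow_le_pow_left₀ (by norm_num) c3 4
    linarith
  have hL4 : 0 < L ^ 4 := by positivity
  have hDpos : 0 < D := by
    have : (0 : ℝ) < D := by linarith
    exact_mod_cast this
  have hlen : (n : ℝ) / Real.log n ^ 1 ≤ (y₂ : ℝ) - y₁ := by
    refine le_trans ?_ hδ2
    rw [← hL, pow_one, div_le_iff₀ hL0]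
    rw [div_le_iff₀ hδ] at c2
    have : (1 : ℝ) * n ≤ (L * δ) * n := mul_le_mul_of_nonneg_right c2 hn0.le
    linarith
  have hlog1 : 1 < Real.log (n : ℝ) := by rw [← hL]; linarith
  obtain ⟨T, hT⟩ : ∃ T, T = TT q c h y₁ y₂ := ⟨_, rfl⟩
  rw [← hT]
  have hTn : ∀ p ∈ T, p ≤ n := by
    intro p hp
    rw [hT] at hp
    unfold TT at hp
    rw [mem_filter, mem_Ioc] at hp
    omega
  have hL5 : (q : ℝ) ≤ L ^ 5 := by
    refine c1.trans ?_
    calc L = L ^ 1 := (pow_one L).symm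
      _ ≤ L ^ 5 := pow_le_pow_right₀ (by linarith) (by norm_num)
  have hlow := card_lower q c h y₁ y₂ n hq (by rw [← hL]; exact hL5) hy hyn hlen hlog1 hc hch hHC
  rw [← hT, ← hL] at hlow
  obtain ⟨t, ht⟩ : ∃ t : ℝ, t = (T.card : ℝ) := ⟨_, rfl⟩
  rw [← ht] at hlow ⊢
  -- `t` is large
  have ht1 : 9 * √(n : ℝ) / ε ≤ t := by
    refine le_trans ?_ hlow
    have h1 : δ * n / (2 * q * L ^ 2) ≤ ((y₂ : ℝ) - y₁) / (2 * q * L ^ 2) := by gcongr
    refine le_trans ?_ h1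
    rw [div_le_div_iff₀ hε (by positivity)]
    rw [div_mul_eq_mul_div, div_le_iff₀ (by positivity)] at a3
    have h2 : 18 * q * L ^ 2 * √(n : ℝ) ≤ √(n : ℝ) * (ε * δ) * √(n : ℝ) := mul_le_mul_of_nonneg_right a3 hs0.le
    calc 9 * √(n : ℝ) * (2 * q * L ^ 2) = 18 * q * L ^ 2 * √(n : ℝ) := by ring
      _ ≤ √(n : ℝ) * (ε * δ) * √(n : ℝ) := h2
      _ = δ * (√(n : ℝ) * √(n : ℝ)) * ε := by ring
      _ = δ * n * ε := by rw [hsn]
  have ht0 : 0 < t := lt_of_lt_of_le (by positivity) ht1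
  refine ⟨by
    have : (0 : ℝ) < (T.card : ℝ) := by rw [← ht]; exact ht0
    exact_mod_cast this, ?_⟩
  have hAw : ∀ y : ℕ, w < y → ∏ l ∈ (PP w z).filter (fun l => l ≤ y), aa l ≤ √(y : ℝ) := fun y hy' => hA w z y hw0 hy'
  -- sum the pointwise bound
  have hpt : ∑ p ∈ T, ∑ p' ∈ T, FF w z h p p' ≤ ∑ p ∈ T, ∑ p' ∈ T,
      (1 + ∑ l ∈ (PP w z).filter (fun l => l ≤ D), (if Col h p p' l then 9 / √(l : ℝ) else 0) +
      54 * Real.log n / √(D : ℝ) + (if Sp h p p' then √(n : ℝ) else 0)) := by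
    apply sum_le_sum
    intro p hp
    apply sum_le_sum
    intro p' hp'
    exact FF_point w z h p p' n D hw4 (by omega) hz b5 (hTn p hp) (hTn p' hp') hh hh0 hDpos hAw
  refine hpt.trans ?_
  simp only [sum_add_distrib, sum_const, nsmul_eq_mul, mul_one]
  rw [← hL, ← ht]
  -- the collisions
  have hcol : ∑ p ∈ T, ∑ p' ∈ T, ∑ l ∈ (PP w z).filter (fun l => l ≤ D), (if Col h p p' l then 9 / √(l : ℝ) else 0) ≤
      270 / √(w : ℝ) * t ^ 2 := by
    have e1 : ∑ p ∈ T, ∑ p' ∈ T, ∑ l ∈ (PP w z).filter (fun l => l ≤ D), (if Col h p p' l then 9 / √(l : ℝ) else 0) =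
        ∑ l ∈ (PP w z).filter (fun l => l ≤ D), (9 / √(l : ℝ)) * ∑ p ∈ T, ((T.filter (fun p' : ℕ => Col h p p' l)).card : ℝ) := by
      rw [sum_congr rfl (fun p _ => sum_comm), sum_comm]
      apply sum_congr rfl
      intro l _
      rw [mul_sum]
      apply sum_congr rfl
      intro p _
      rw [← sum_filter, sum_const, nsmul_eq_mul, mul_comm]
    rw [e1]
    have e2 : ∀ l ∈ (PP w z).filter (fun l => l ≤ D), (9 / √(l : ℝ)) * ∑ p ∈ T, ((T.filter (fun p' : ℕ => Col h p p' l)).card : ℝ) ≤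
        135 * t ^ 2 * (1 / ((l : ℝ) * √(l : ℝ))) := by
      intro l hl
      rw [mem_filter, mem_PP] at hl
      have hl5 : 5 ≤ l := by omega
      have hlr : (5 : ℝ) ≤ l := by exact_mod_cast hl5
      have hlD : (l : ℝ) ≤ D := by exact_mod_cast hl.2
      have hqlL : ((q * l : ℕ) : ℝ) ≤ Real.log n ^ 5 := by
        rw [← hL]
        push_cast
        calc (q : ℝ) * l ≤ L * L ^ 4 := mul_le_mul c1 (hlD.trans hDle) (by positivity) hL0.le
          _ = L ^ 5 := by ring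
      have hly : l ≤ y₁ := by
        have h1 : (l : ℝ) ≤ y₁ := by
          refine le_trans ?_ hδ1
          have h2 : (l : ℝ) ≤ L ^ 4 := hlD.trans hDle
          rw [one_div, inv_mul_le_iff₀ hδ] at a2
          have h3 : √(n : ℝ) ≤ n := by nlinarith
          calc (l : ℝ) ≤ L ^ 4 := h2
            _ ≤ δ * √(n : ℝ) := a2
            _ ≤ δ * n := mul_le_mul_of_nonneg_left h3 hδ.le
        exact_mod_cast h1
      have h1 := col_count T h l (5 * t / l) (fun e => by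
        rw [hT, ht, hT]
        exact class_le q c h y₁ y₂ n l hq hl.1.1.2 hl5 (hql l hl.1.1.2 hl.1.2) hqlL hly hy hyn hlen hlog1 hc hch hHC e)
      rw [← ht] at h1
      have hs : 0 < √(l : ℝ) := Real.sqrt_pos.2 (by linarith)
      calc (9 / √(l : ℝ)) * ∑ p ∈ T, ((T.filter (fun p' : ℕ => Col h p p' l)).card : ℝ)
          ≤ (9 / √(l : ℝ)) * (3 * t * (5 * t / l)) := mul_le_mul_of_nonneg_left h1 (by positivity)
        _ = 135 * t ^ 2 * (1 / ((l : ℝ) * √(l : ℝ))) := by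
            field_simp
            norm_num
    refine (sum_le_sum e2).trans ?_
    rw [← mul_sum]
    have e3 : ∑ l ∈ (PP w z).filter (fun l => l ≤ D), 1 / ((l : ℝ) * √(l : ℝ)) ≤ 2 / √(w : ℝ) := by
      rcases Nat.lt_or_ge z w with hzw | hzw
      · rw [sum_eq_zero]
        · positivity
        · intro l hl
          rw [mem_filter, mem_PP] at hl
          omega
      · have h1 := tail_sum w z (by omega) hzw
        have h2 : ∑ l ∈ (PP w z).filter (fun l => l ≤ D), 1 / ((l : ℝ) * √(l : ℝ)) ≤ ∑ l ∈ Ioc w z, 1 / ((l : ℝ) * √(l : ℝ)) := by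
          apply sum_le_sum_of_subset_of_nonneg
          · intro l hl
            rw [mem_filter, mem_PP] at hl
            rw [mem_Ioc]
            omega
          · intro i _ _
            positivity
        have h3 : 0 ≤ 2 / √(z : ℝ) := by positivity
        linarith
    calc 135 * t ^ 2 * ∑ l ∈ (PP w z).filter (fun l => l ≤ D), 1 / ((l : ℝ) * √(l : ℝ)) ≤ 135 * t ^ 2 * (2 / √(w : ℝ)) :=
          mul_le_mul_of_nonneg_left e3 (by positivity)
      _ = _ := by ring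
  -- the special pairs
  have hsp : ∑ p ∈ T, ∑ p' ∈ T, (if Sp h p p' then √(n : ℝ) else 0) ≤ 3 * t * √(n : ℝ) := by
    have h1 : ∀ p ∈ T, ∑ p' ∈ T, (if Sp h p p' then √(n : ℝ) else 0) ≤ 3 * √(n : ℝ) := by
      intro p _
      rw [← sum_filter, sum_const, nsmul_eq_mul]
      apply mul_le_mul_of_nonneg_right _ hs0.le
      have h2 : T.filter (fun p' => Sp h p p') ⊆ {p, p - h, p + h} := by
        intro p' hp'
        rw [mem_filter] at hp'
        simp only [mem_insert, mem_singleton]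
        unfold Sp at hp'
        omega
      have h3 := (card_le_card h2).trans card_le_three
      exact_mod_cast h3
    calc ∑ p ∈ T, ∑ p' ∈ T, (if Sp h p p' then √(n : ℝ) else 0) ≤ ∑ p ∈ T, 3 * √(n : ℝ) := sum_le_sum h1
      _ = 3 * t * √(n : ℝ) := by rw [sum_const, nsmul_eq_mul, ← ht]; ring
  -- the large primes
  have hρ : 54 * L / √(D : ℝ) ≤ ε / 3 := by
    have h1 : L ^ 2 / 2 ≤ √(D : ℝ) := by
      apply Real.le_sqrt_of_sq_le
      calc (L ^ 2 / 2) ^ 2 = L ^ 4 / 4 := by ring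
        _ ≤ (D : ℝ) := hDge
    have hsD : 0 < √(D : ℝ) := lt_of_lt_of_le (by positivity) h1
    rw [div_le_iff₀ hsD]
    rw [div_le_iff₀ hε] at c4
    have h2 : ε / 3 * (L ^ 2 / 2) ≤ ε / 3 * √(D : ℝ) := mul_le_mul_of_nonneg_left h1 (by positivity)
    have h9 := mul_le_mul_of_nonneg_right c4 (by positivity : (0 : ℝ) ≤ L / 6)
    calc 54 * L = 324 * (L / 6) := by ring
      _ ≤ L * ε * (L / 6) := h9
      _ = ε / 3 * (L ^ 2 / 2) := by ring
      _ ≤ _ := h2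
  have hsp2 : 3 * t * √(n : ℝ) ≤ ε / 3 * t ^ 2 := by
    rw [div_le_iff₀ hε] at ht1
    have h9 := mul_le_mul_of_nonneg_left ht1 (by positivity : (0 : ℝ) ≤ t / 3)
    calc 3 * t * √(n : ℝ) = t / 3 * (9 * √(n : ℝ)) := by ring
      _ ≤ t / 3 * (t * ε) := h9
      _ = ε / 3 * t ^ 2 := by ring
  have hcol2 : 270 / √(w : ℝ) * t ^ 2 ≤ ε / 3 * t ^ 2 := mul_le_mul_of_nonneg_right hwε (by positivity)
  have hρ2 : t * (t * (54 * L / √(D : ℝ))) ≤ ε / 3 * t ^ 2 := by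
    have : t * (t * (54 * L / √(D : ℝ))) = (54 * L / √(D : ℝ)) * t ^ 2 := by ring
    rw [this]
    exact mul_le_mul_of_nonneg_right hρ (by positivity)
  have e0 : t * t = t ^ 2 := by ring
  linarith

end Pool.Agent.Helper255.GC
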