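import Pool.Agent.Helper255.GG.CAsm

/-! All vertices have a large neighbour, all large vertices have many vertices at distance two. -/

set_option autoImplicit false

open Finset

namespace Pool.Agent.Helper255.GG

theorem chen_core24 : ∃ c : ℝ, 0 < c ∧ ∃ n₀ : ℕ, ∀ n : ℕ, n₀ ≤ n →
    (∀ x : ℕ, n ≤ 24 * x → x ≤ n → c * n ≤ (T3 n x : ℝ)) ∧
    (∀ x : ℕ, 1 ≤ x → x ≤ n → ∃ y : ℕ, n ≤ 24 * y ∧ y ≤ n ∧ 1 ≤ y ∧ (E3 n y x ∨ E3 n x y)) := by
  classical
  obtain ⟨C, hC, n1, hN⟩ := rough_le
  obtain ⟨C6, hC6, h6⟩ := mom6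
  obtain ⟨a, ha, n2, hlow⟩ := chen_low
  obtain ⟨n3, hup⟩ := chen_up
  refine ⟨a ^ 4 / (2 * C6 * C ^ 2), by positivity, max n1 (max n2 (max n3 3000)), ?_⟩
  intro n hn
  have b1 : n1 ≤ n := (le_max_left _ _).trans hn
  have b2 : n2 ≤ n := ((le_max_left _ _).trans (le_max_right _ _)).trans hn
  have b3 : n3 ≤ n := ((le_max_left _ _).trans ((le_max_right _ _).trans (le_max_right _ _))).trans hn
  have b4 : 3000 ≤ n := ((le_max_right _ _).trans ((le_max_right _ _).trans (le_max_right _ _))).trans hn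
  have hnr : (3000 : ℝ) ≤ n := by exact_mod_cast b4
  refine ⟨?_, ?_⟩
  · intro x hx8 hxn
    obtain ⟨L, hL⟩ : ∃ L, L = Real.log n := ⟨_, rfl⟩
    have hL0 : 0 < L := by rw [hL]; exact Real.log_pos (by linarith)
    obtain ⟨g, hg⟩ : ∃ g, g = G x := ⟨_, rfl⟩
    have hg1 : 1 ≤ g := by rw [hg]; exact one_le_G x
    have hg0 : 0 < g := by linarith
    set Y := (Ico (x / 4) x).filter (fun y => E3 n x y) with hY
    have hYc : a * (g * (n / L ^ 2)) ≤ (Y.card : ℝ) := by
      rw [hg, hL]
      exact hlow n b2 x (by omega) hxn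
    have hYd : ∀ y ∈ Y, a * (n / L ^ 2) ≤ (((Ico 1 y).filter (fun z => E3 n y z)).card : ℝ) := by
      intro y hy
      rw [hY, mem_filter, mem_Ico] at hy
      have h1 := hlow n b2 y (by omega) (by omega)
      rw [← hL] at h1
      have h2 : ((Ico (y / 4) y).filter (fun z => E3 n y z)).card ≤ ((Ico 1 y).filter (fun z => E3 n y z)).card := by
        apply card_le_card
        apply filter_subset_filter
        apply Ico_subset_Ico _ le_rfl
        omega
      have h2' : (((Ico (y / 4) y).filter (fun z => E3 n y z)).card : ℝ) ≤ (((Ico 1 y).filter (fun z => E3 n y z)).card : ℝ) := by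
        exact_mod_cast h2
      refine le_trans ?_ (h1.trans h2')
      have h3 := one_le_G y
      have h4 : (0 : ℝ) ≤ a * (n / L ^ 2) := by positivity
      nlinarith
    have hcount : ∑ y ∈ Y, ((Ico 1 y).filter (fun z => E3 n y z)).card ≤ ∑ z ∈ Ico 1 x, N3 n x z := by
      have e1 : ∑ y ∈ Y, ((Ico 1 y).filter (fun z => E3 n y z)).card =
          ∑ y ∈ Y, ∑ z ∈ Ico 1 x, (if z < y ∧ E3 n y z then 1 else 0) := by
        apply sum_congr rfl
        intro y hy
        rw [hY, mem_filter, mem_Ico] at hy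
        rw [← sum_filter, sum_const, smul_eq_mul, mul_one]
        congr 1
        ext z
        simp only [mem_filter, mem_Ico]
        constructor
        · rintro ⟨⟨h1, h2⟩, h3⟩
          exact ⟨⟨h1, by omega⟩, h2, h3⟩
        · rintro ⟨⟨h1, _⟩, h2, h3⟩
          exact ⟨⟨h1, h2⟩, h3⟩
      rw [e1, sum_comm]
      apply sum_le_sum
      intro z _
      unfold N3
      rw [← sum_filter, sum_const, smul_eq_mul, mul_one]
      apply card_le_card
      intro y hy
      rw [mem_filter, hY, mem_filter, mem_Ico] at hy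
      rw [mem_filter, mem_Ioo]
      exact ⟨⟨hy.2.1, hy.1.1.2⟩, hy.1.2, hy.2.2⟩
    have hcount' : ((∑ y ∈ Y, ((Ico 1 y).filter (fun z => E3 n y z)).card : ℕ) : ℝ) ≤ ((∑ z ∈ Ico 1 x, N3 n x z : ℕ) : ℝ) := by
      exact_mod_cast hcount
    have hS : (a * (g * (n / L ^ 2))) * (a * (n / L ^ 2)) ≤ ((∑ z ∈ Ico 1 x, N3 n x z : ℕ) : ℝ) := by
      refine le_trans ?_ hcount'
      push_cast
      have h0 : 0 ≤ a * (n / L ^ 2) := by positivity
      calc (a * (g * (n / L ^ 2))) * (a * (n / L ^ 2)) ≤ Y.card * (a * (n / L ^ 2)) :=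
            mul_le_mul_of_nonneg_right hYc h0
        _ = ∑ y ∈ Y, (a * (n / L ^ 2)) := by rw [sum_const, nsmul_eq_mul]
        _ ≤ _ := sum_le_sum hYd
    have hsec := second_gen C C6 hC hC6 h6 n x hxn g (n / L ^ 4) (le_of_eq hg.symm) (fun z => N3 n x z)
      (fun z hz1 hz2 => by
        have h1 := hN n b1 x z hz1 hz2 hxn ((Ioo z x).filter (fun y => E3 n x y ∧ E3 n y z)) (by
          intro y hy
          rw [mem_filter, mem_Ioo] at hy
          obtain ⟨⟨hy1, hy2⟩, ⟨_, hp1, hp2, hr1⟩, _, hp3, hp4, hr2⟩ := hy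
          refine ⟨by omega, ?_⟩
          intro p hp hd
          have hpz := Nat.prime_iff_prime_int.1 hp
          unfold GP at hd
          rcases hpz.dvd_or_dvd hd with h8 | h8
          · rcases hpz.dvd_or_dvd h8 with h9 | h9
            · rcases hpz.dvd_or_dvd h9 with h10 | h10
              · exact rough_pow hr1 hp (by exact_mod_cast h10)
              · have h11 : p ∣ x - y := by
                  rw [← Int.natCast_dvd_natCast, Nat.cast_sub hy2.le]
                  exact h10
                rw [(Nat.prime_dvd_prime_iff_eq hp hp1).1 h11]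
                exact hp2
            · exact rough_pow hr2 hp (by exact_mod_cast h9)
          · have h11 : p ∣ y - z := by
              rw [← Int.natCast_dvd_natCast, Nat.cast_sub hy1.le]
              exact h8
            rw [(Nat.prime_dvd_prime_iff_eq hp hp3).1 h11]
            exact hp4)
        rw [← hL] at h1
        exact h1)
    have hcs : ((∑ z ∈ Ico 1 x, N3 n x z : ℕ) : ℝ) ^ 2 ≤ T3 n x * ∑ z ∈ Ico 1 x, (N3 n x z : ℝ) ^ 2 := by
      have h1 : ((∑ z ∈ Ico 1 x, N3 n x z : ℕ) : ℝ) = ∑ z ∈ (Ico 1 x).filter (fun z => 0 < N3 n x z), (N3 n x z : ℝ) := by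
        push_cast
        rw [sum_filter]
        apply sum_congr rfl
        intro z _
        split_ifs with h
        · rfl
        · have : N3 n x z = 0 := by omega
          rw [this, Nat.cast_zero]
      rw [h1]
      refine (sq_sum_le_card_mul_sum_sq).trans ?_
      unfold T3
      apply mul_le_mul_of_nonneg_left _ (Nat.cast_nonneg _)
      apply sum_le_sum_of_subset_of_nonneg (filter_subset _ _)
      intro i _ _
      positivity
    have hS2 : ((a * (g * (n / L ^ 2))) * (a * (n / L ^ 2))) ^ 2 ≤ ((∑ z ∈ Ico 1 x, N3 n x z : ℕ) : ℝ) ^ 2 :=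
      pow_le_pow_left₀ (by positivity) hS 2
    have hfin : ((a * (g * (n / L ^ 2))) * (a * (n / L ^ 2))) ^ 2 ≤ T3 n x * (2 * C6 * g ^ 2 * C ^ 2 * (n / L ^ 4) ^ 2 * n) :=
      (hS2.trans hcs).trans (mul_le_mul_of_nonneg_left hsec (Nat.cast_nonneg _))
    have e : ((a * (g * (n / L ^ 2))) * (a * (n / L ^ 2))) ^ 2 =
        (a ^ 4 / (2 * C6 * C ^ 2) * n) * (2 * C6 * g ^ 2 * C ^ 2 * (n / L ^ 4) ^ 2 * n) := by
      field_simp
    rw [e] at hfin
    exact le_of_mul_le_mul_right hfin (by positivity)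
  · intro x hx1 hxn
    rcases Nat.lt_or_ge (5 * x) n with h | h
    · obtain ⟨y, hy1, hy2, hy3⟩ := hup n b3 x hx1 (by omega)
      exact ⟨y, by omega, hy2, by omega, Or.inl hy3⟩
    · have h1 := hlow n b2 x (by omega) hxn
      have h2 : 0 < ((Ico (x / 4) x).filter (fun y => E3 n x y)).card := by
        have hL0 : 0 < Real.log n := Real.log_pos (by linarith)
        have h3 : 0 < a * (G x * (n / Real.log n ^ 2)) := by
          have := one_le_G x
          positivity
        exact_mod_cast h3.trans_le h1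
      obtain ⟨y, hy⟩ := card_pos.1 h2
      rw [mem_filter, mem_Ico] at hy
      exact ⟨y, by omega, by omega, by omega, Or.inr hy.2⟩

end Pool.Agent.Helper255.GG
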