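import Pool.Agent.Helper255.GC.Core

/-! Residue classes, exceptional differences and the number of prime factors. -/

set_option autoImplicit false

open Finset

namespace Pool.Agent.Helper255.GC

open Pool.Agent.H373R2.T7 (pz mem_pz PerB nuB sys_fund Vz Vz_low ev_log' ev_L')
open Pool.Agent.TH935.DF (HC cc)

/-- the modulus -/
def qq (w : ℕ) : ℕ := ∏ l ∈ pz w, l ^ 2

lemma qq_pos (w : ℕ) : 1 ≤ qq w := by
  unfold qq
  apply Nat.one_le_iff_ne_zero.2
  apply prod_ne_zero_iff.2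
  intro l hl
  exact pow_ne_zero 2 (mem_pz.1 hl).2.ne_zero

lemma dvd_qq (w l : ℕ) (hl : l.Prime) (hlw : l ≤ w) : l ^ 2 ∣ qq w :=
  dvd_prod_of_mem (fun l => l ^ 2) (mem_pz.2 ⟨hlw, hl⟩)

lemma qq_big (w l : ℕ) (hl : l.Prime) (hlw : w < l) : ¬ l ∣ qq w := by
  intro h
  unfold qq at h
  rw [hl.prime.dvd_finsetProd_iff] at h
  obtain ⟨p, hp, hd⟩ := h
  rw [mem_pz] at hp
  have := hl.dvd_of_dvd_pow hd
  have := Nat.le_of_dvd hp.2.pos this
  omega

lemma local_class (l : ℕ) (hl : l.Prime) (a : ℤ) (h : ℕ) (hh : Even h) :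
    ∃ c : ℕ, ¬ l ∣ c ∧ ¬ l ∣ c + h ∧ ¬ ((l ^ 2 : ℕ) : ℤ) ∣ 2 * a - c ∧ ¬ ((l ^ 2 : ℕ) : ℤ) ∣ 2 * a - c + h := by
  have hl2 := hl.two_le
  rcases Nat.lt_or_ge l 3 with h3 | h3
  · have : l = 2 := by omega
    subst this
    obtain ⟨k, hk⟩ := hh
    refine ⟨1, by norm_num, by omega, ?_, ?_⟩
    · rintro ⟨m, hm⟩
      push_cast at hm
      omega
    · rintro ⟨m, hm⟩
      push_cast at hm
      omega
  · -- a class modulo `l`
    obtain ⟨r, hr1, hr2⟩ : ∃ r : ℕ, ¬ l ∣ r ∧ ¬ l ∣ r + h := by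
      by_cases h1 : l ∣ 1 + h
      · refine ⟨2, fun h2 => ?_, fun h2 => ?_⟩
        · have := Nat.le_of_dvd (by norm_num) h2
          omega
        · have h4 := (Nat.dvd_sub h2 h1)
          have e : 2 + h - (1 + h) = 1 := by omega
          rw [e] at h4
          have := Nat.le_of_dvd (by norm_num) h4
          omega
      · refine ⟨1, fun h2 => ?_, h1⟩
        have := Nat.le_of_dvd (by norm_num) h2
        omega
    have hl3 : (3 : ℤ) ≤ l := by exact_mod_cast h3
    have hsq : ((l ^ 2 : ℕ) : ℤ) = l * l := by push_cast; ring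
    -- two lifts cannot share a forbidden class
    have hno : ∀ (b : ℤ) (i j : ℤ), 0 ≤ i → i < j → j ≤ 2 → ((l ^ 2 : ℕ) : ℤ) ∣ b - (r + l * i) →
        ((l ^ 2 : ℕ) : ℤ) ∣ b - (r + l * j) → False := by
      intro b i j hi hij hj h1 h2
      have h4 := dvd_sub h1 h2
      have e : b - (r + l * i) - (b - (r + l * j)) = l * (j - i) := by ring
      rw [e, hsq] at h4
      have h5 : (l : ℤ) ∣ j - i := (mul_dvd_mul_iff_left (by omega)).1 h4
      have := Int.le_of_dvd (by omega) h5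
      omega
    have hlift : ∀ i : ℕ, ¬ l ∣ r + l * i ∧ ¬ l ∣ r + l * i + h := by
      intro i
      constructor
      · intro h1
        exact hr1 ((Nat.dvd_add_left (Dvd.intro _ rfl)).1 h1)
      · intro h1
        have e : r + l * i + h = r + h + l * i := by ring
        rw [e] at h1
        exact hr2 ((Nat.dvd_add_left (Dvd.intro _ rfl)).1 h1)
    by_contra hcon
    push Not at hcon
    have key : ∀ i : ℕ, ((l ^ 2 : ℕ) : ℤ) ∣ 2 * a - (r + l * i) ∨ ((l ^ 2 : ℕ) : ℤ) ∣ (2 * a + h) - (r + l * i) := by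
      intro i
      by_cases h1 : ((l ^ 2 : ℕ) : ℤ) ∣ 2 * a - (r + l * i)
      · exact Or.inl h1
      · right
        have h2 := hcon (r + l * i) (hlift i).1 (hlift i).2 (by push_cast at h1 ⊢; exact h1)
        have e : (2 * a + h) - (r + l * i) = 2 * a - ((r + l * i : ℕ) : ℤ) + h := by push_cast; ring
        rw [e]
        exact h2
    have k0 := key 0
    have k1 := key 1
    have k2 := key 2
    simp only [Nat.cast_zero, Nat.cast_one, Nat.cast_ofNat] at k0 k1 k2
    rcases k0 with k0 | k0 <;> rcases k1 with k1 | k1 <;> rcases k2 with k2 | k2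
    · exact hno _ 0 1 (by norm_num) (by norm_num) (by norm_num) k0 k1
    · exact hno _ 0 1 (by norm_num) (by norm_num) (by norm_num) k0 k1
    · exact hno _ 0 2 (by norm_num) (by norm_num) (by norm_num) k0 k2
    · exact hno _ 1 2 (by norm_num) (by norm_num) (by norm_num) k1 k2
    · exact hno _ 1 2 (by norm_num) (by norm_num) (by norm_num) k1 k2
    · exact hno _ 0 2 (by norm_num) (by norm_num) (by norm_num) k0 k2
    · exact hno _ 0 1 (by norm_num) (by norm_num) (by norm_num) k0 k1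
    · exact hno _ 0 1 (by norm_num) (by norm_num) (by norm_num) k0 k1

/-- the class of the primes -/
lemma exists_class (w : ℕ) (a : ℤ) (h : ℕ) (hh : Even h) : ∃ c : ℕ, Nat.Coprime c (qq w) ∧ Nat.Coprime (c + h) (qq w) ∧
    ∀ l : ℕ, l.Prime → l ≤ w → ¬ ((l ^ 2 : ℕ) : ℤ) ∣ 2 * a - c ∧ ¬ ((l ^ 2 : ℕ) : ℤ) ∣ 2 * a - c + h := by
  classical
  have hex : ∀ l : ℕ, ∃ c : ℕ, l.Prime → (¬ l ∣ c ∧ ¬ l ∣ c + h ∧ ¬ ((l ^ 2 : ℕ) : ℤ) ∣ 2 * a - c ∧ ¬ ((l ^ 2 : ℕ) : ℤ) ∣ 2 * a - c + h) := by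
    intro l
    by_cases hl : l.Prime
    · obtain ⟨c, hc⟩ := local_class l hl a h hh
      exact ⟨c, fun _ => hc⟩
    · exact ⟨0, fun h1 => absurd h1 hl⟩
  choose f hf using hex
  obtain ⟨c, hc⟩ := Nat.chineseRemainderOfFinset f (fun l => l ^ 2) (pz w) (fun l hl => pow_ne_zero 2 (mem_pz.1 hl).2.ne_zero)
    (by
      intro l hl l' hl' hne
      have h1 := (mem_pz.1 (mem_coe.1 hl)).2
      have h2 := (mem_pz.1 (mem_coe.1 hl')).2
      exact Nat.Coprime.pow 2 2 ((Nat.coprime_primes h1 h2).2 hne))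
  have hcl : ∀ l : ℕ, l.Prime → l ≤ w → (((l ^ 2 : ℕ) : ℤ) ∣ (c : ℤ) - f l) := by
    intro l hl hlw
    have h1 := hc l (mem_pz.2 ⟨hlw, hl⟩)
    have h2 := (Int.natCast_modEq_iff.2 h1).symm
    exact h2.dvd
  have hll : ∀ l : ℕ, ((l : ℕ) : ℤ) ∣ ((l ^ 2 : ℕ) : ℤ) := by
    intro l
    rw [Int.natCast_dvd_natCast]
    exact dvd_pow_self l (by norm_num)
  refine ⟨c, ?_, ?_, ?_⟩
  · unfold qq
    apply Nat.Coprime.prod_right
    intro l hl
    rw [mem_pz] at hl
    apply Nat.Coprime.pow_right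
    rw [Nat.coprime_comm, Nat.Prime.coprime_iff_not_dvd hl.2]
    intro hd
    apply (hf l hl.2).1
    have h1 := (hll l).trans (hcl l hl.2 hl.1)
    have h2 : (l : ℤ) ∣ c := by exact_mod_cast hd
    have h3 := dvd_sub h2 h1
    rw [sub_sub_cancel] at h3
    exact_mod_cast h3
  · unfold qq
    apply Nat.Coprime.prod_right
    intro l hl
    rw [mem_pz] at hl
    apply Nat.Coprime.pow_right
    rw [Nat.coprime_comm, Nat.Prime.coprime_iff_not_dvd hl.2]
    intro hd
    apply (hf l hl.2).2.1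
    have h1 := (hll l).trans (hcl l hl.2 hl.1)
    have h2 : (l : ℤ) ∣ ((c + h : ℕ) : ℤ) := by exact_mod_cast hd
    have h3 := dvd_sub h2 h1
    have e : ((c + h : ℕ) : ℤ) - (c - f l) = ((f l + h : ℕ) : ℤ) := by push_cast; ring
    rw [e] at h3
    exact_mod_cast h3
  · intro l hl hlw
    have h1 := hcl l hl hlw
    obtain ⟨-, -, h2, h3⟩ := hf l hl
    refine ⟨fun h4 => h2 ?_, fun h4 => h3 ?_⟩
    · have h5 := dvd_add h4 h1
      have e : 2 * a - c + (c - f l) = 2 * a - f l := by ring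
      rwa [e] at h5
    · have h5 := dvd_add h4 h1
      have e : 2 * a - c + h + (c - f l) = 2 * a - f l + h := by ring
      rwa [e] at h5

/-- the number of prime factors -/
lemma omega_le (w z K m : ℕ) (hm : 0 < m) (hmK : m < (z + 1) ^ (K + 1)) (hsq : ∀ l : ℕ, l.Prime → l ≤ w → ¬ l ^ 2 ∣ m)
    (hfree : ∀ l : ℕ, l.Prime → w < l → l ≤ z → ¬ l ∣ m) : m.primeFactorsList.length ≤ w + K := by
  classical
  obtain ⟨L, hL⟩ : ∃ L, L = m.primeFactorsList := ⟨_, rfl⟩
  have hLp : ∀ p ∈ L, p.Prime := fun p hp => Nat.prime_of_mem_primeFactorsList (hL ▸ hp)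
  have hLd : ∀ p ∈ L, p ∣ m := fun p hp => Nat.dvd_of_mem_primeFactorsList (hL ▸ hp)
  have hprod : L.prod = m := by rw [hL]; exact Nat.prod_primeFactorsList hm.ne'
  rw [← hL]
  have hsplit : L.length = (L.filter (fun p => decide (p ≤ w))).length + (L.filter (fun p => decide (¬ p ≤ w))).length := by
    have := List.length_eq_length_filter_add (l := L) (fun p => decide (p ≤ w))
    simp only [decide_not]
    exact this
  -- small primes occur once
  have h1 : (L.filter (fun p => decide (p ≤ w))).length ≤ w := by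
    have hnd : (L.filter (fun p => decide (p ≤ w))).Nodup := by
      rw [List.nodup_iff_count_le_one]
      intro p
      by_contra hcon
      push Not at hcon
      have hmem : p ∈ L.filter (fun p => decide (p ≤ w)) := List.count_pos_iff.1 (by omega)
      rw [List.mem_filter, decide_eq_true_eq] at hmem
      have hc : List.count p (L.filter (fun p => decide (p ≤ w))) ≤ List.count p L := List.Sublist.count_le p List.filter_sublist
      have h2 : 2 ≤ List.count p L := by omega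
      rw [hL, Nat.primeFactorsList_count_eq] at h2
      have hpp := hLp p hmem.1
      exact hsq p hpp hmem.2 ((hpp.pow_dvd_iff_le_factorization hm.ne').2 h2)
    have hsub : (L.filter (fun p => decide (p ≤ w))).toFinset ⊆ Icc 1 w := by
      intro p hp
      rw [List.mem_toFinset, List.mem_filter, decide_eq_true_eq] at hp
      rw [mem_Icc]
      exact ⟨(hLp p hp.1).one_le, hp.2⟩
    have := card_le_card hsub
    rwa [List.toFinset_card_of_nodup hnd, Nat.card_Icc, Nat.add_sub_cancel] at this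
  have h2 : (L.filter (fun p => decide (¬ p ≤ w))).length ≤ K := by
    obtain ⟨R, hR⟩ : ∃ R, R = L.filter (fun p => decide (¬ p ≤ w)) := ⟨_, rfl⟩
    rw [← hR]
    have hRz : ∀ p ∈ R, z + 1 ≤ p := by
      intro p hp
      rw [hR, List.mem_filter, decide_eq_true_eq] at hp
      by_contra hcon
      exact hfree p (hLp p hp.1) (by omega) (by omega) (hLd p hp.1)
    have hpow : (z + 1) ^ R.length ≤ R.prod := by
      clear hR
      induction R with
      | nil => simp
      | cons a t ih =>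
        rw [List.length_cons, pow_succ, List.prod_cons, mul_comm]
        exact Nat.mul_le_mul (hRz a (by simp)) (ih (fun p hp => hRz p (by simp [hp])))
    have hdv : R.prod ∣ m := by
      rw [← hprod, hR]
      exact List.Sublist.prod_dvd_prod List.filter_sublist
    have hle := Nat.le_of_dvd hm hdv
    by_contra hcon
    push Not at hcon
    have : (z + 1) ^ (K + 1) ≤ (z + 1) ^ R.length := Nat.pow_le_pow_right (by omega) hcon
    omega
  omega

/-- few exceptional differences -/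
theorem bad_h_few : ∃ n₀ : ℕ, ∀ n : ℕ, n₀ ≤ n → ∀ S : Finset ℕ, S ⊆ Icc 1 (n / 2) →
    (∀ x ∈ S, ¬ HC (1 / 2) 1 5 1 n (2 * x)) → (S.card : ℝ) ≤ n / Real.log n := by
  classical
  obtain ⟨N₀, h⟩ := Pool.Agent.TH935.DF.fam_c 1 1 5 1 1 1 (1 / 2) (by norm_num) le_rfl
  obtain ⟨n1, hn1⟩ := Pool.Agent.H373R2.T7.ev_L' 8
  refine ⟨max N₀ (max n1 8), fun n hn S hS hb => ?_⟩
  have b1 : N₀ ≤ n := (le_max_left _ _).trans hn
  have b2 : n1 ≤ n := ((le_max_left _ _).trans (le_max_right _ _)).trans hn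
  have b3 : 8 ≤ n := ((le_max_right _ _).trans (le_max_right _ _)).trans hn
  have e1 := hn1 n b2
  have hcard := h n b1 (n / 2) (fun m => 2 * (m : ℤ)) (fun m hm => ?_) ?_ S hS (fun m hm => ?_)
  · rw [pow_one] at hcard
    refine hcard.trans ?_
    apply div_le_div_of_nonneg_right _ (by positivity)
    exact_mod_cast Nat.div_le_self n 2
  · rw [mem_Icc] at hm
    have h1 : 2 * (m : ℤ) ≤ n := by omega
    rw [abs_of_nonneg (by positivity)]
    push_cast
    linarith
  · have he : Pool.Agent.H373R2.T7.energy 1 (n / 2) (fun m => 2 * (m : ℤ)) ≤ n / 2 := by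
      unfold Pool.Agent.H373R2.T7.energy
      have : (((Fintype.piFinset fun _ : Fin 1 => Icc 1 (n / 2)) ×ˢ (Fintype.piFinset fun _ : Fin 1 => Icc 1 (n / 2))).filter
          (fun q => ∑ i, (fun m : ℕ => 2 * (m : ℤ)) (q.1 i) = ∑ i, (fun m : ℕ => 2 * (m : ℤ)) (q.2 i))).card ≤ (Icc 1 (n / 2)).card := by
        apply card_le_card_of_injOn (fun q => q.1 0)
        · intro q hq
          simp only [coe_filter, Set.mem_ofPred_eq, mem_product, Fintype.mem_piFinset] at hq
          exact hq.1.1 0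
        · intro a ha b hb hab
          simp only [coe_filter, Set.mem_ofPred_eq, mem_product, Fintype.mem_piFinset, Fin.sum_univ_one] at ha hb hab
          have h1 : a.1 = b.1 := by
            ext i
            rw [Subsingleton.elim i 0]
            exact hab
          have h2 : a.2 = b.2 := by
            ext i
            rw [Subsingleton.elim i 0]
            omega
          exact Prod.ext h1 h2
      rwa [Nat.card_Icc, Nat.add_sub_cancel] at this
    have he' : (Pool.Agent.H373R2.T7.energy 1 (n / 2) (fun m => 2 * (m : ℤ)) : ℝ) ≤ ((n / 2 : ℕ) : ℝ) := by exact_mod_cast he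
    have hn0 : (0 : ℝ) ≤ n := Nat.cast_nonneg _
    have h3 : n ≤ 8 * (n / 2) := by omega
    have h3' : (n : ℝ) ≤ 8 * ((n / 2 : ℕ) : ℝ) := by exact_mod_cast h3
    have h4 : (0 : ℝ) ≤ ((n / 2 : ℕ) : ℝ) := Nat.cast_nonneg _
    calc (Pool.Agent.H373R2.T7.energy 1 (n / 2) (fun m => 2 * (m : ℤ)) : ℝ) * n ≤ ((n / 2 : ℕ) : ℝ) * n :=
          mul_le_mul_of_nonneg_right he' hn0
      _ ≤ ((n / 2 : ℕ) : ℝ) * (8 * ((n / 2 : ℕ) : ℝ)) := mul_le_mul_of_nonneg_left h3' h4
      _ = 8 * ((n / 2 : ℕ) : ℝ) ^ 2 := by ring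
      _ ≤ Real.log n * ((n / 2 : ℕ) : ℝ) ^ 2 := mul_le_mul_of_nonneg_right e1 (by positivity)
      _ = Real.log n ^ 1 * ((n / 2 : ℕ) : ℝ) ^ (2 * 1) := by ring
  · have h1 := hS hm
    rw [mem_Icc] at h1
    refine ⟨show (0 : ℤ) < 2 * (m : ℤ) by omega, ⟨m, by ring⟩, ?_⟩
    have h2 : (2 * (m : ℤ)).toNat = 2 * m := by omega
    rw [h2]
    exact hb m hm

end Pool.Agent.Helper255.GC
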