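import Pool.Agent.Helper255.GC.Avg2

/-! Almost all points have a common neighbour: one difference and one class. -/

set_option autoImplicit false

open Finset

namespace Pool.Agent.Helper255.GC

open Pool.Agent.H373R2.T7 (pz mem_pz PerB nuB sys_fund Vz Vz_low ev_log' ev_L')
open Pool.Agent.TH935.DF (HC cc)

lemma V2_low : ∃ C N0 : ℕ, ∀ w z h : ℕ, 4 ≤ w → N0 ≤ z → 1 / Real.log z ^ C ≤ V2 w z h := by
  classical
  obtain ⟨C, N0, hV⟩ := Vz_low
  refine ⟨C * 3, max N0 3, fun w z h hw hz => ?_⟩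
  have hVz := hV z ((le_max_left _ _).trans hz)
  have hz3 : 3 ≤ z := (le_max_right _ _).trans hz
  have hz1 : (1 : ℝ) < z := by exact_mod_cast (by omega : 1 < z)
  have hL : 0 < Real.log z := Real.log_pos hz1
  have h1 : Vz z ^ 3 ≤ V2 w z h := by
    unfold Vz V2
    rw [← prod_pow]
    have h2 : ∏ l ∈ pz z, (1 - 1 / (l : ℝ)) ^ 3 ≤ ∏ l ∈ PP w z, (1 - 1 / (l : ℝ)) ^ 3 := by
      have hsub : PP w z ⊆ pz z := filter_subset _ _
      rw [← prod_sdiff hsub]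
      have h3 : ∏ l ∈ pz z \ PP w z, (1 - 1 / (l : ℝ)) ^ 3 ≤ 1 := by
        apply prod_le_one
        · intro l hl
          rw [mem_sdiff, mem_pz] at hl
          have hl2 : (2 : ℝ) ≤ l := by exact_mod_cast hl.1.2.two_le
          have : 1 / (l : ℝ) ≤ 1 / 2 := div_le_div_of_nonneg_left (by norm_num) (by norm_num) hl2
          exact pow_nonneg (by linarith) 3
        · intro l hl
          rw [mem_sdiff, mem_pz] at hl
          have hl2 : (2 : ℝ) ≤ l := by exact_mod_cast hl.1.2.two_le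
          have : 1 / (l : ℝ) ≤ 1 / 2 := div_le_div_of_nonneg_left (by norm_num) (by norm_num) hl2
          have h0 : 0 < 1 / (l : ℝ) := by positivity
          exact pow_le_one₀ (by linarith) (by linarith)
      have h4 : 0 ≤ ∏ l ∈ PP w z, (1 - 1 / (l : ℝ)) ^ 3 := by
        apply prod_nonneg
        intro l hl
        rw [mem_PP] at hl
        have hl2 : (2 : ℝ) ≤ l := by exact_mod_cast hl.1.2.two_le
        have : 1 / (l : ℝ) ≤ 1 / 2 := div_le_div_of_nonneg_left (by norm_num) (by norm_num) hl2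
        exact pow_nonneg (by linarith) 3
      calc _ ≤ 1 * ∏ l ∈ PP w z, (1 - 1 / (l : ℝ)) ^ 3 := mul_le_mul_of_nonneg_right h3 h4
        _ = _ := one_mul _
    refine h2.trans ?_
    apply prod_le_prod
    · intro l hl
      rw [mem_PP] at hl
      have hl2 : (2 : ℝ) ≤ l := by exact_mod_cast hl.1.2.two_le
      have : 1 / (l : ℝ) ≤ 1 / 2 := div_le_div_of_nonneg_left (by norm_num) (by norm_num) hl2
      exact pow_nonneg (by linarith) 3
    · intro l hl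
      rw [mem_PP] at hl
      have hl5 : (5 : ℝ) ≤ l := by exact_mod_cast (by omega : 5 ≤ l)
      obtain ⟨u, hu⟩ : ∃ u, u = 1 / (l : ℝ) := ⟨_, rfl⟩
      have hu0 : 0 < u := by rw [hu]; positivity
      have hu5 : u ≤ 1 / 5 := by
        rw [hu]
        apply div_le_div_of_nonneg_left (by norm_num) (by norm_num) hl5
      have h3 : (1 - u) ^ 3 ≤ 1 - 2 * u := by nlinarith [mul_pos hu0 hu0, mul_pos (mul_pos hu0 hu0) hu0, mul_nonneg hu0.le (by linarith : (0 : ℝ) ≤ 1 / 5 - u)]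
      have h4 : (nu2 h l : ℝ) ≤ 2 := by exact_mod_cast nu2_le h l
      have h5 : (nu2 h l : ℝ) / l ≤ 2 * u := by
        rw [hu]
        calc (nu2 h l : ℝ) / l ≤ 2 / l := by gcongr
          _ = _ := by ring
      rw [← hu]
      linarith
  refine le_trans ?_ h1
  calc 1 / Real.log z ^ (C * 3) = (1 / Real.log z ^ C) ^ 3 := by rw [pow_mul, div_pow, one_pow]
    _ ≤ Vz z ^ 3 := pow_le_pow_left₀ (by positivity) hVz 3

/-- the second moment method -/
lemma cs (T I : Finset ℕ) (R : ℕ → ℕ → Prop) [∀ p j, Decidable (R p j)] (ε V X : ℝ) (F : ℕ → ℕ → ℝ)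
    (hε : 0 < ε) (hε1 : ε ≤ 1 / 2) (hV : 0 < V) (hX : 0 < X) (hI : (I.card : ℝ) = X) (hT : 0 < T.card)
    (h1 : ∀ p ∈ T, (1 - 2 * ε) * (X * V) ≤ ((I.filter (fun j => R p j)).card : ℝ))
    (h2 : ∀ p ∈ T, ∀ p' ∈ T, ((I.filter (fun j => R p j ∧ R p' j)).card : ℝ) ≤
      (1 + ε) * (X * (V ^ 2 * F p p')) + ε * (X * V ^ 2))
    (h3 : ∑ p ∈ T, ∑ p' ∈ T, F p p' ≤ (1 + ε) * (T.card : ℝ) ^ 2) :
    ((I.filter (fun j => ∀ p ∈ T, ¬ R p j)).card : ℝ) ≤ 8 * ε * X := by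
  classical
  obtain ⟨t, ht⟩ : ∃ t : ℝ, t = (T.card : ℝ) := ⟨_, rfl⟩
  have ht0 : 0 < t := by rw [ht]; exact_mod_cast hT
  obtain ⟨a, ha⟩ : ∃ a : ℕ → ℝ, a = fun j => ((T.filter (fun p => R p j)).card : ℝ) := ⟨_, rfl⟩
  have ha' : ∀ j, a j = ∑ p ∈ T, (if R p j then (1 : ℝ) else 0) := by
    intro j
    rw [ha]
    simp only
    rw [← sum_filter, sum_const, nsmul_eq_mul, mul_one]
  have hs1 : t * ((1 - 2 * ε) * (X * V)) ≤ ∑ j ∈ I, a j := by
    have e1 : ∑ j ∈ I, a j = ∑ p ∈ T, ((I.filter (fun j => R p j)).card : ℝ) := by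
      rw [sum_congr rfl (fun j _ => ha' j), sum_comm]
      apply sum_congr rfl
      intro p _
      rw [← sum_filter, sum_const, nsmul_eq_mul, mul_one]
    rw [e1]
    calc t * ((1 - 2 * ε) * (X * V)) = ∑ p ∈ T, (1 - 2 * ε) * (X * V) := by rw [sum_const, nsmul_eq_mul, ht]
      _ ≤ _ := sum_le_sum h1
  have hs2 : ∑ j ∈ I, a j ^ 2 ≤ X * V ^ 2 * t ^ 2 * ((1 + ε) ^ 2 + ε) := by
    have e1 : ∑ j ∈ I, a j ^ 2 = ∑ p ∈ T, ∑ p' ∈ T, ((I.filter (fun j => R p j ∧ R p' j)).card : ℝ) := by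
      have e2 : ∀ j, a j ^ 2 = ∑ p ∈ T, ∑ p' ∈ T, (if R p j ∧ R p' j then (1 : ℝ) else 0) := by
        intro j
        rw [sq, ha' j, sum_mul_sum]
        apply sum_congr rfl
        intro p _
        apply sum_congr rfl
        intro p' _
        by_cases c1 : R p j
        · by_cases c2 : R p' j
          · simp [c1, c2]
          · simp [c1, c2]
        · simp [c1]
      rw [sum_congr rfl (fun j _ => e2 j), sum_comm]
      apply sum_congr rfl
      intro p _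
      rw [sum_comm]
      apply sum_congr rfl
      intro p' _
      rw [← sum_filter, sum_const, nsmul_eq_mul, mul_one]
    rw [e1]
    calc ∑ p ∈ T, ∑ p' ∈ T, ((I.filter (fun j => R p j ∧ R p' j)).card : ℝ)
        ≤ ∑ p ∈ T, ∑ p' ∈ T, ((1 + ε) * (X * (V ^ 2 * F p p')) + ε * (X * V ^ 2)) :=
          sum_le_sum (fun p hp => sum_le_sum (fun p' hp' => h2 p hp p' hp'))
      _ = (1 + ε) * (X * V ^ 2) * (∑ p ∈ T, ∑ p' ∈ T, F p p') + t ^ 2 * (ε * (X * V ^ 2)) := by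
          simp only [sum_add_distrib, sum_const, nsmul_eq_mul, ← ht]
          rw [mul_sum]
          congr 1
          · apply sum_congr rfl
            intro p _
            rw [mul_sum]
            apply sum_congr rfl
            intro p' _
            ring
          · ring
      _ ≤ (1 + ε) * (X * V ^ 2) * ((1 + ε) * t ^ 2) + t ^ 2 * (ε * (X * V ^ 2)) := by
          rw [← ht] at h3
          have : 0 ≤ (1 + ε) * (X * V ^ 2) := by positivity
          linarith [mul_le_mul_of_nonneg_left h3 this]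
      _ = _ := by ring
  obtain ⟨G, hG⟩ : ∃ G, G = I.filter (fun j => ¬ ∀ p ∈ T, ¬ R p j) := ⟨_, rfl⟩
  have hGs : ∑ j ∈ I, a j = ∑ j ∈ G, a j := by
    rw [hG, sum_filter]
    apply sum_congr rfl
    intro j _
    split_ifs with h
    · rw [ha']
      apply sum_eq_zero
      intro p hp
      rw [if_neg (h p hp)]
    · rfl
  have hcs : (∑ j ∈ G, a j) ^ 2 ≤ G.card * ∑ j ∈ I, a j ^ 2 := by
    refine sq_sum_le_card_mul_sum_sq.trans ?_
    apply mul_le_mul_of_nonneg_left _ (Nat.cast_nonneg _)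
    apply sum_le_sum_of_subset_of_nonneg
    · rw [hG]
      exact filter_subset _ _
    · intro i _ _
      positivity
  rw [← hGs] at hcs
  have h4 : (t * ((1 - 2 * ε) * (X * V))) ^ 2 ≤ (∑ j ∈ I, a j) ^ 2 := by
    apply pow_le_pow_left₀ _ hs1
    have : 0 ≤ 1 - 2 * ε := by linarith
    positivity
  have hG0 : (0 : ℝ) ≤ G.card := Nat.cast_nonneg _
  have h5 : (t * ((1 - 2 * ε) * (X * V))) ^ 2 ≤ G.card * (X * V ^ 2 * t ^ 2 * ((1 + ε) ^ 2 + ε)) :=
    (h4.trans hcs).trans (mul_le_mul_of_nonneg_left hs2 hG0)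
  have h6 : (X * V ^ 2 * t ^ 2) * ((1 - 2 * ε) ^ 2 * X) ≤ (X * V ^ 2 * t ^ 2) * (G.card * ((1 + ε) ^ 2 + ε)) := by
    calc (X * V ^ 2 * t ^ 2) * ((1 - 2 * ε) ^ 2 * X) = (t * ((1 - 2 * ε) * (X * V))) ^ 2 := by ring
      _ ≤ _ := h5
      _ = _ := by ring
  have h7 : (1 - 2 * ε) ^ 2 * X ≤ G.card * ((1 + ε) ^ 2 + ε) := le_of_mul_le_mul_left h6 (by positivity)
  have h8 : (G.card : ℝ) + ((I.filter (fun j => ∀ p ∈ T, ¬ R p j)).card : ℝ) = X := by
    rw [← hI, hG]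
    have := card_filter_add_card_filter_not (s := I) (fun j => ∀ p ∈ T, ¬ R p j)
    have h9 : ((I.filter (fun j => ¬ ∀ p ∈ T, ¬ R p j)).card : ℝ) + ((I.filter (fun j => ∀ p ∈ T, ¬ R p j)).card : ℝ) = I.card := by
      rw [add_comm]
      exact_mod_cast this
    exact h9
  have h9 : (1 - 8 * ε) * X ≤ G.card := by
    have h10 : (1 - 8 * ε) * ((1 + ε) ^ 2 + ε) ≤ (1 - 2 * ε) ^ 2 := by nlinarith [mul_pos hε hε, mul_pos (mul_pos hε hε) hε]
    have h11 : ((1 - 8 * ε) * X) * ((1 + ε) ^ 2 + ε) ≤ G.card * ((1 + ε) ^ 2 + ε) := by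
      calc ((1 - 8 * ε) * X) * ((1 + ε) ^ 2 + ε) = ((1 - 8 * ε) * ((1 + ε) ^ 2 + ε)) * X := by ring
        _ ≤ (1 - 2 * ε) ^ 2 * X := mul_le_mul_of_nonneg_right h10 hX.le
        _ ≤ _ := h7
    exact le_of_mul_le_mul_right h11 (by positivity)
  linarith

open Classical in
theorem core (ε : ℝ) (hε : 0 < ε) (hε1 : ε ≤ 1 / 2) : ∃ w₁ : ℕ, 4 ≤ w₁ ∧ ∀ w : ℕ, w₁ ≤ w → ∀ q : ℕ, 1 ≤ q →
    (∀ l : ℕ, l.Prime → w < l → ¬ l ∣ q) → ∀ δ : ℝ, 0 < δ → ∃ K n₀ : ℕ, 1 ≤ K ∧ ∀ n : ℕ, n₀ ≤ n →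
    ∃ z : ℕ, w < z ∧ z ≤ n ∧ n < (z + 1) ^ K ∧
    ∀ h c y₁ y₂ : ℕ, 0 < h → h ≤ n → Nat.Coprime c q → Nat.Coprime (c + h) q → y₁ < y₂ → y₂ ≤ n →
    δ * n ≤ y₁ → δ * n ≤ (y₂ : ℝ) - y₁ → HC (1 / 2) 1 5 1 n h →
    ∀ s X : ℕ, δ * n ≤ X →
      (((Icc 1 X).filter (fun j => ∀ p ∈ TT q c h y₁ y₂, ¬ Gd w z s q (S2 h p) j)).card : ℝ) ≤ 8 * ε * X := by
  obtain ⟨w₁, hw₁, havg⟩ := avg ε hε
  obtain ⟨K, x0, hK, hfl⟩ := fl ε hε
  obtain ⟨C, N0, hVl⟩ := V2_low
  refine ⟨w₁, hw₁, fun w hw q hq hql δ hδ => ?_⟩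
  obtain ⟨n1, hn1⟩ := havg w hw q hq hql δ hδ
  obtain ⟨n2, hn2⟩ := ev_log' (C * 2) (1 / (ε * δ))
  obtain ⟨n3, hn3⟩ := ev_L' 1
  obtain ⟨zm, hzm⟩ : ∃ zm, zm = max x0 (max N0 (w + 3)) := ⟨_, rfl⟩
  refine ⟨K, max (max n1 n2) (max n3 (zm ^ K)), hK, ?_⟩
  intro n hn
  have b1 : n1 ≤ n := ((le_max_left _ _).trans (le_max_left _ _)).trans hn
  have b2 : n2 ≤ n := ((le_max_right _ _).trans (le_max_left _ _)).trans hn
  have b3 : n3 ≤ n := ((le_max_left _ _).trans (le_max_right _ _)).trans hn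
  have b4 : zm ^ K ≤ n := ((le_max_right _ _).trans (le_max_right _ _)).trans hn
  have hw4 : 4 ≤ w := hw₁.trans hw
  have hzm3 : w + 3 ≤ zm := by rw [hzm]; exact (le_max_right _ _).trans (le_max_right _ _)
  have hzmn : zm ≤ n := by
    refine le_trans ?_ b4
    calc zm = zm ^ 1 := (pow_one _).symm
      _ ≤ zm ^ K := Nat.pow_le_pow_right (by omega) hK
  -- the root
  obtain ⟨z, hz⟩ : ∃ z, z = Nat.findGreatest (fun z => z ^ K ≤ n) n := ⟨_, rfl⟩
  have hz1 : zm ≤ z := by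
    rw [hz]
    exact Nat.le_findGreatest hzmn b4
  have hz2 : z ^ K ≤ n := by
    rw [hz]
    exact Nat.findGreatest_spec (P := fun z => z ^ K ≤ n) hzmn b4
  have hz3 : z ≤ n := by rw [hz]; exact Nat.findGreatest_le n
  have hz4 : n < (z + 1) ^ K := by
    by_contra hcon
    push Not at hcon
    have h1 : z + 1 ≤ n := by
      refine le_trans ?_ hcon
      calc z + 1 = (z + 1) ^ 1 := (pow_one _).symm
        _ ≤ (z + 1) ^ K := Nat.pow_le_pow_right (by omega) hK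
    have h2 : z + 1 ≤ z := by
      conv_rhs => rw [hz]
      exact Nat.le_findGreatest h1 hcon
    omega
  refine ⟨z, by omega, hz3, hz4, ?_⟩
  intro h c y₁ y₂ hh0 hh hc hch hy hyn hδ1 hδ2 hHC s X hX
  obtain ⟨hT0, hF⟩ := hn1 n b1 z h c y₁ y₂ hz3 hh0 hh hc hch hy hyn hδ1 hδ2 hHC
  have hzx0 : x0 ≤ z := by rw [hzm] at hz1; exact (le_max_left _ _).trans hz1
  have hzN0 : N0 ≤ z := by rw [hzm] at hz1; exact ((le_max_left _ _).trans (le_max_right _ _)).trans hz1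
  have hfl' := hfl n z hzx0 hz2 w s q (by omega) hql
  have hV := hVl w z h hw4 hzN0
  obtain ⟨V, hVd⟩ : ∃ V, V = V2 w z h := ⟨_, rfl⟩
  have hV0 : 0 < V := by rw [hVd]; exact V2_pos w z h hw4
  have hV1 : V ≤ 1 := by rw [hVd]; exact V2_le_one w z h hw4
  have hn0 : (0 : ℝ) < n := by exact_mod_cast (by omega : 0 < n)
  have hs0 : 0 < √(n : ℝ) := Real.sqrt_pos.2 hn0
  have hsn : √(n : ℝ) * √(n : ℝ) = n := Real.mul_self_sqrt hn0.le
  have hXr : (0 : ℝ) < X := lt_of_lt_of_le (by positivity) hX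
  -- the error term
  have hz1r : (1 : ℝ) < z := by exact_mod_cast (by omega : 1 < z)
  have hLz : 0 < Real.log z := Real.log_pos hz1r
  have hLn : Real.log z ≤ Real.log n := Real.log_le_log (by linarith) (by exact_mod_cast hz3)
  have herr : √(n : ℝ) ≤ ε * (X * V ^ 2) := by
    have h1 := hn2 n b2
    have h2 : 1 / Real.log n ^ (C * 2) ≤ V ^ 2 := by
      calc 1 / Real.log n ^ (C * 2) ≤ 1 / Real.log z ^ (C * 2) := by
            apply one_div_le_one_div_of_le (by positivity)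
            exact pow_le_pow_left₀ hLz.le hLn _
        _ = (1 / Real.log z ^ C) ^ 2 := by rw [pow_mul, div_pow, one_pow]
        _ ≤ V ^ 2 := by
            rw [hVd]
            exact pow_le_pow_left₀ (by positivity) hV 2
    have hLn0 : 0 < Real.log n := lt_of_lt_of_le hLz hLn
    have h3 : ε * ((δ * n) * (1 / Real.log n ^ (C * 2))) ≤ ε * (X * V ^ 2) := by
      apply mul_le_mul_of_nonneg_left _ hε.le
      exact mul_le_mul hX h2 (by positivity) hXr.le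
    refine le_trans ?_ h3
    rw [show ε * ((δ * n) * (1 / Real.log n ^ (C * 2))) = (ε * δ * n) / Real.log n ^ (C * 2) by ring,
      le_div_iff₀ (by positivity)]
    rw [div_mul_eq_mul_div, one_mul, div_le_iff₀ (by positivity)] at h1
    calc √(n : ℝ) * Real.log n ^ (C * 2) ≤ √(n : ℝ) * (√(n : ℝ) * (ε * δ)) := mul_le_mul_of_nonneg_left h1 hs0.le
      _ = ε * δ * (√(n : ℝ) * √(n : ℝ)) := by ring
      _ = ε * δ * n := by rw [hsn]
  have hVV : V ^ 2 ≤ V := by nlinarith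
  apply cs (TT q c h y₁ y₂) (Icc 1 X) (fun p j => Gd w z s q (S2 h p) j) ε V X (fun p p' => FF w z h p p') hε hε1
    hV0 hXr (by rw [Nat.card_Icc, Nat.add_sub_cancel]) hT0 _ _ hF
  · intro p _
    have h1 := hfl' (S2 h p) (S2_card h p) X
    rw [abs_le] at h1
    have h2 := single_low w z h p hw4
    rw [← hVd] at h2
    have h3 : (1 - ε) * (X * V) ≤ (1 - ε) * (X * ∏ l ∈ PP w z, (1 - (nu (S2 h p) l : ℝ) / l)) := by
      apply mul_le_mul_of_nonneg_left _ (by linarith)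
      exact mul_le_mul_of_nonneg_left h2 hXr.le
    have h4 : ε * (X * V ^ 2) ≤ ε * (X * V) := by gcongr
    linarith [h1.1]
  · intro p _ p' _
    have h1 := hfl' (S4 h p p') (S4_card h p p') X
    rw [abs_le] at h1
    have h2 := double_up w z h p p' hw4
    rw [← hVd] at h2
    have h3 : (1 + ε) * (X * ∏ l ∈ PP w z, (1 - (nu (S4 h p p') l : ℝ) / l)) ≤ (1 + ε) * (X * (V ^ 2 * FF w z h p p')) := by
      apply mul_le_mul_of_nonneg_left _ (by linarith)
      exact mul_le_mul_of_nonneg_left h2 hXr.le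
    have e1 : (Icc 1 X).filter (fun j => Gd w z s q (S2 h p) j ∧ Gd w z s q (S2 h p') j) =
        (Icc 1 X).filter (fun j => Gd w z s q (S4 h p p') j) := by
      apply filter_congr
      intro j _
      unfold Gd S2 S4
      simp only [mem_insert, mem_singleton, forall_eq_or_imp, forall_eq]
      constructor
      · rintro ⟨h5, h6⟩ l hl hwl
        exact ⟨(h5 l hl hwl).1, (h5 l hl hwl).2, (h6 l hl hwl).1, (h6 l hl hwl).2⟩
      · intro h5
        exact ⟨fun l hl hwl => ⟨(h5 l hl hwl).1, (h5 l hl hwl).2.1⟩, fun l hl hwl => (h5 l hl hwl).2.2⟩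
    have e2 : ((((Icc 1 X).filter (fun j => Gd w z s q (S2 h p) j ∧ Gd w z s q (S2 h p') j)).card : ℕ) : ℝ) =
        (((Icc 1 X).filter (fun j => Gd w z s q (S4 h p p') j)).card : ℝ) := by rw [e1]
    rw [e2]
    linarith [h1.2]

end Pool.Agent.Helper255.GC
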