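import Pool.Agent.H373R2.T7.Fund
import Pool.Agent.TH935.DF4

/-! The fundamental lemma for linear forms in progressions, two moments. -/

set_option autoImplicit false

open Finset

namespace Pool.Agent.Helper255.GC

open Pool.Agent.H373R2.T7 (pz mem_pz PerB nuB sys_fund Vz)

/-- the linear form `2 (s + q j) - c` -/
def lf (s q : ℕ) (c : ℤ) (j : ℕ) : ℤ := 2 * ((s : ℤ) + q * j) - c

/-- no prime in `(w, z]` divides the forms -/
def Gd (w z s q : ℕ) (S : Finset ℤ) (j : ℕ) : Prop := ∀ l ∈ pz z, w < l → ∀ c ∈ S, ¬ (l : ℤ) ∣ lf s q c j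

/-- the sieving primes -/
def PP (w z : ℕ) : Finset ℕ := (pz z).filter (fun l => w < l)

/-- the bad classes -/
def BQ (w s q : ℕ) (S : Finset ℤ) (l j : ℕ) : Prop := w < l ∧ ∃ c ∈ S, (l : ℤ) ∣ lf s q c j

/-- number of classes -/
noncomputable def nu (S : Finset ℤ) (l : ℕ) : ℕ := (S.image (fun c : ℤ => (c : ZMod l))).card

lemma nuB_eq (w s q : ℕ) (hw : 2 ≤ w) (hq : ∀ l : ℕ, l.Prime → w < l → ¬ l ∣ q) (S : Finset ℤ) (l : ℕ)
    (hl : l.Prime) : nuB (BQ w s q S) l = if w < l then nu S l else 0 := by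
  classical
  unfold nuB
  split_ifs with h
  · have : Fact l.Prime := ⟨hl⟩
    have h2 : (2 : ZMod l) ≠ 0 := by
      intro h0
      have h1 : ((2 : ℕ) : ZMod l) = 0 := by exact_mod_cast h0
      rw [ZMod.natCast_eq_zero_iff] at h1
      have := Nat.le_of_dvd (by norm_num) h1
      omega
    have hq0 : (q : ZMod l) ≠ 0 := by
      intro h0
      rw [ZMod.natCast_eq_zero_iff] at h0
      exact hq l hl h h0
    have hiff : ∀ (c : ℤ) (j : ℕ), (l : ℤ) ∣ lf s q c j ↔ (2 * ((s : ZMod l) + q * j)) = (c : ZMod l) := by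
      intro c j
      rw [← ZMod.intCast_zmod_eq_zero_iff_dvd]
      unfold lf
      push_cast
      rw [sub_eq_zero]
    unfold nu
    apply Finset.card_bij (fun (j : ℕ) _ => (2 * ((s : ZMod l) + q * j)))
    · intro j hj
      rw [mem_filter] at hj
      obtain ⟨-, -, c, hc, hd⟩ := hj
      rw [mem_image]
      exact ⟨c, hc, ((hiff c j).1 hd).symm⟩
    · intro j hj j' hj' he
      rw [mem_filter, mem_range] at hj hj'
      have h3 : ((j : ℕ) : ZMod l) = (j' : ZMod l) := by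
        have h4 := mul_left_cancel₀ h2 he
        exact mul_left_cancel₀ hq0 (add_left_cancel h4)
      rw [ZMod.natCast_eq_natCast_iff'] at h3
      rwa [Nat.mod_eq_of_lt hj.1, Nat.mod_eq_of_lt hj'.1] at h3
    · intro b hb
      rw [mem_image] at hb
      obtain ⟨c, hc, rfl⟩ := hb
      obtain ⟨j, hj⟩ : ∃ j : ℕ, j = (((c : ZMod l) / 2 - s) / q).val := ⟨_, rfl⟩
      have hjz : (j : ZMod l) = ((c : ZMod l) / 2 - s) / q := by rw [hj, ZMod.natCast_zmod_val]
      have he : (2 * ((s : ZMod l) + q * j)) = (c : ZMod l) := by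
        rw [hjz]
        field_simp
        ring
      refine ⟨j, ?_, he⟩
      rw [mem_filter, mem_range]
      refine ⟨?_, h, c, hc, (hiff c j).2 he⟩
      rw [hj]
      exact ZMod.val_lt _
  · rw [card_eq_zero, filter_eq_empty_iff]
    intro j _ h1
    exact h h1.1

lemma per (w s q : ℕ) (hw : 2 ≤ w) (hq : ∀ l : ℕ, l.Prime → w < l → ¬ l ∣ q) (S : Finset ℤ) (hS : S.card ≤ 4) :
    PerB (BQ w s q S) 4 where
  per := by
    intro l n
    have h1 : ∀ c : ℤ, (l : ℤ) ∣ lf s q c n ↔ (l : ℤ) ∣ lf s q c (n % l) := by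
      intro c
      have h2 : (l : ℤ) ∣ lf s q c n - lf s q c (n % l) := by
        unfold lf
        have h3 : ((n : ℕ) : ℤ) = ((n % l : ℕ) : ℤ) + l * ((n / l : ℕ) : ℤ) := by
          have := Nat.mod_add_div n l
          exact_mod_cast this.symm
        rw [h3]
        refine ⟨2 * q * ((n / l : ℕ) : ℤ), ?_⟩
        ring
      constructor
      · intro h
        have := dvd_sub h h2
        rwa [sub_sub_cancel] at this
      · intro h
        have := dvd_add h2 h
        rwa [sub_add_cancel] at this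
    unfold BQ
    simp only [h1]
  few := by
    intro p hp
    rw [nuB_eq w s q hw hq S p hp]
    split_ifs
    · unfold nu
      exact card_image_le.trans hS
    · omega

open Classical in
theorem fl (ε : ℝ) (hε : 0 < ε) : ∃ K x0 : ℕ, 1 ≤ K ∧ ∀ x z : ℕ, x0 ≤ z → z ^ K ≤ x → ∀ w s q : ℕ, 2 ≤ w →
    (∀ l : ℕ, l.Prime → w < l → ¬ l ∣ q) → ∀ S : Finset ℤ, S.card ≤ 4 → ∀ X : ℕ,
    |((((Icc 1 X).filter (fun j : ℕ => Gd w z s q S j)).card : ℕ) : ℝ) - X * ∏ l ∈ PP w z, (1 - (nu S l : ℝ) / l)| ≤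
      ε * (X * ∏ l ∈ PP w z, (1 - (nu S l : ℝ) / l)) + √(x : ℝ) := by
  obtain ⟨K, x0, hK, h⟩ := sys_fund 4 (by norm_num) ε hε
  refine ⟨K, x0, hK, fun x z hz hzx w s q hw hq S hS X => ?_⟩
  have h1 := h x z hz hzx _ (per w s q hw hq S hS) X
  have e1 : ∏ p ∈ pz z, (1 - (nuB (BQ w s q S) p : ℝ) / p) =
      ∏ l ∈ PP w z, (1 - (nu S l : ℝ) / l) := by
    unfold PP
    rw [prod_filter]
    apply prod_congr rfl
    intro p hp
    rw [nuB_eq w s q hw hq S p (mem_pz.1 hp).2]
    split_ifs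
    · rfl
    · simp
  have e2 : (Icc 1 X).filter (fun n : ℕ => ∀ p ∈ pz z, ¬ BQ w s q S p n) =
      (Icc 1 X).filter (fun j : ℕ => Gd w z s q S j) := by
    apply filter_congr
    intro j _
    unfold Gd
    constructor
    · intro h2 l hl hwl c hc hd
      exact h2 l hl ⟨hwl, c, hc, hd⟩
    · rintro h2 l hl ⟨hwl, c, hc, hd⟩
      exact h2 l hl hwl c hc hd
  rw [e1] at h1
  rw [e2] at h1
  exact h1

end Pool.Agent.Helper255.GC
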