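import Pool.Agent.Helper255.GC.Pairs
import Pool.Agent.Helper255.GC.Chen24

/-! Short walks between all vertices. -/

set_option autoImplicit false

open Finset

namespace Pool.Agent.Helper255.GC

open Pool.Agent.Helper255.GG

lemma E3_Ek {k n x y : ℕ} (hk : 2 ≤ k) (hn : 1000 ≤ n) (hy : 1 ≤ y) (h : E3 n x y) : Ek k x y := by
  obtain ⟨h1, h2, h3, h4⟩ := h
  have hodd : Odd (x + y) := by
    rw [← Nat.not_even_iff_odd]
    intro he
    have := rough_pow h4 Nat.prime_two (by exact_mod_cast he.two_dvd)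
    omega
  refine ⟨h1, h2, ?_, hodd, ?_⟩
  · intro h5
    rw [h5] at h3
    omega
  · have hlen := h4.2.1
    rw [Int.natAbs_natCast] at hlen
    omega

/-- the graph on the natural numbers -/
def NG (k n : ℕ) : SimpleGraph ℕ where
  Adj x y := (1 ≤ x ∧ x ≤ n) ∧ (1 ≤ y ∧ y ≤ n) ∧ (Ek k x y ∨ Ek k y x)
  symm := ⟨fun _ _ h => ⟨h.2.1, h.1, h.2.2.symm⟩⟩
  loopless := ⟨fun x h => by
    rcases h.2.2 with h1 | h1
    · exact lt_irrefl _ h1.1
    · exact lt_irrefl _ h1.1⟩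

lemma walk_two {k n x z : ℕ} (hk : 2 ≤ k) (hn : 1000 ≤ n) (hx : x ≤ n) (hz : z ∈ (Ico 1 x).filter (fun z => 0 < N3 n x z)) :
    ∃ p : (NG k n).Walk x z, p.length = 2 := by
  classical
  rw [mem_filter, mem_Ico] at hz
  obtain ⟨⟨hz1, hz2⟩, hz3⟩ := hz
  unfold N3 at hz3
  rw [card_pos] at hz3
  obtain ⟨y, hy⟩ := hz3
  rw [mem_filter, mem_Ioo] at hy
  have a1 : (NG k n).Adj x y := ⟨⟨by omega, hx⟩, ⟨by omega, by omega⟩, Or.inl (E3_Ek hk hn (by omega) hy.2.1)⟩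
  have a2 : (NG k n).Adj y z := ⟨⟨by omega, by omega⟩, ⟨by omega, by omega⟩, Or.inl (E3_Ek hk hn hz1 hy.2.2)⟩
  exact ⟨SimpleGraph.Walk.cons a1 (SimpleGraph.Walk.cons a2 SimpleGraph.Walk.nil), rfl⟩

lemma parity_two {n x z : ℕ} (hn : 1000 ≤ n) (hz : z ∈ (Ico 1 x).filter (fun z => 0 < N3 n x z)) : z % 2 = x % 2 := by
  classical
  rw [mem_filter, mem_Ico] at hz
  obtain ⟨⟨hz1, hz2⟩, hz3⟩ := hz
  unfold N3 at hz3
  rw [card_pos] at hz3
  obtain ⟨y, hy⟩ := hz3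
  rw [mem_filter, mem_Ioo] at hy
  have h1 := (E3_Ek (le_refl 2) hn (by omega) hy.2.1).2.2.2.1
  have h2 := (E3_Ek (le_refl 2) hn hz1 hy.2.2).2.2.2.1
  rw [Nat.odd_iff] at h1 h2
  omega

/-- many pairs of numbers of the same parity have a common neighbour -/
lemma joined (k n : ℕ) (hk : 2 ≤ k) (hn : 1000 ≤ n) (c : ℝ) (hc : 0 < c)
    (hB : ∑ m ∈ Icc 1 (n / 2), ((BB k n m).card : ℝ) ≤ c ^ 2 / 4 * (n : ℝ) ^ 2)
    (x x' : ℕ) (hx : x ≤ n) (hx' : x' ≤ n) (hpar : x % 2 = x' % 2) (hT : c * n ≤ (T3 n x : ℝ)) (hT' : c * n ≤ (T3 n x' : ℝ)) :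
    ∃ p : (NG k n).Walk x x', p.length ≤ 6 := by
  classical
  obtain ⟨A, hA⟩ : ∃ A, A = (Ico 1 x).filter (fun z => 0 < N3 n x z) := ⟨_, rfl⟩
  obtain ⟨B, hBd⟩ : ∃ B, B = (Ico 1 x').filter (fun z => 0 < N3 n x' z) := ⟨_, rfl⟩
  have hn0 : (0 : ℝ) < n := by exact_mod_cast (by omega : 0 < n)
  have hAc : c * n ≤ (A.card : ℝ) := by rw [hA]; exact hT
  have hBc : c * n ≤ (B.card : ℝ) := by rw [hBd]; exact hT'
  have hAw : ∀ z ∈ A, ∃ p : (NG k n).Walk x z, p.length = 2 := fun z hz => walk_two hk hn hx (hA ▸ hz)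
  have hBw : ∀ z ∈ B, ∃ p : (NG k n).Walk x' z, p.length = 2 := fun z hz => walk_two hk hn hx' (hBd ▸ hz)
  have hAp : ∀ z ∈ A, z % 2 = x % 2 := fun z hz => parity_two hn (hA ▸ hz)
  have hBp : ∀ z ∈ B, z % 2 = x' % 2 := fun z hz => parity_two hn (hBd ▸ hz)
  have hAr : ∀ z ∈ A, 1 ≤ z ∧ z < x := fun z hz => by
    rw [hA, mem_filter, mem_Ico] at hz
    exact hz.1
  have hBr : ∀ z ∈ B, 1 ≤ z ∧ z < x' := fun z hz => by
    rw [hBd, mem_filter, mem_Ico] at hz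
    exact hz.1
  by_contra hcon
  push Not at hcon
  -- the pairs are bad
  have hne : ∀ z ∈ A, ∀ z' ∈ B, z ≠ z' := by
    intro z hz z' hz' he
    subst he
    obtain ⟨p, hp⟩ := hAw z hz
    obtain ⟨p', hp'⟩ := hBw z hz'
    have := hcon (p.append p'.reverse)
    rw [SimpleGraph.Walk.length_append, SimpleGraph.Walk.length_reverse] at this
    omega
  have hbad : ∀ z ∈ A, ∀ z' ∈ B, ∀ y, 1 ≤ y → y < z → y < z' → ¬ (Ek k z y ∧ Ek k z' y) := by
    intro z hz z' hz' y hy1 hyz hyz' hE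
    obtain ⟨p, hp⟩ := hAw z hz
    obtain ⟨p', hp'⟩ := hBw z' hz'
    have r1 := hAr z hz
    have r2 := hBr z' hz'
    have a1 : (NG k n).Adj z y := ⟨⟨by omega, by omega⟩, ⟨by omega, by omega⟩, Or.inl hE.1⟩
    have a2 : (NG k n).Adj y z' := ⟨⟨by omega, by omega⟩, ⟨by omega, by omega⟩, Or.inr hE.2⟩
    have := hcon ((p.append (SimpleGraph.Walk.cons a1 (SimpleGraph.Walk.cons a2 SimpleGraph.Walk.nil))).append p'.reverse)
    rw [SimpleGraph.Walk.length_append, SimpleGraph.Walk.length_append, SimpleGraph.Walk.length_reverse,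
      SimpleGraph.Walk.length_cons, SimpleGraph.Walk.length_cons, SimpleGraph.Walk.length_nil] at this
    omega
  -- counting
  obtain ⟨P, hP⟩ : ∃ P, P = (Icc 1 (n / 2)).sigma (fun m => BB k n m) := ⟨_, rfl⟩
  have hPc : (P.card : ℝ) ≤ c ^ 2 / 4 * (n : ℝ) ^ 2 := by
    rw [hP, card_sigma]
    push_cast
    exact hB
  have h1 : ((A ×ˢ B).filter (fun a => a.1 < a.2)).card ≤ P.card := by
    apply card_le_card_of_injOn (fun a => (⟨(a.2 - a.1) / 2, a.1⟩ : (_ : ℕ) × ℕ))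
    · intro a ha
      rw [mem_coe, mem_filter, mem_product] at ha
      obtain ⟨⟨ha1, ha2⟩, ha3⟩ := ha
      have r1 := hAr _ ha1
      have r2 := hBr _ ha2
      have q1 := hAp _ ha1
      have q2 := hBp _ ha2
      rw [mem_coe, hP, mem_sigma, mem_Icc]
      refine ⟨⟨by show 1 ≤ (a.2 - a.1) / 2; omega, by show (a.2 - a.1) / 2 ≤ n / 2; omega⟩, ?_⟩
      show a.1 ∈ BB k n ((a.2 - a.1) / 2)
      unfold BB
      rw [mem_filter, mem_Icc]
      have e : a.1 + 2 * ((a.2 - a.1) / 2) = a.2 := by omega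
      rw [e]
      refine ⟨⟨by omega, by omega⟩, by omega, ?_⟩
      rintro ⟨y, hy1, hy2, hy3, hy4⟩
      exact hbad _ ha1 _ ha2 y hy1 hy2 (by omega) ⟨hy3, hy4⟩
    · intro a ha b hb hab
      rw [mem_coe, mem_filter, mem_product] at ha hb
      have q1 := hAp _ ha.1.1
      have q2 := hBp _ ha.1.2
      have q3 := hAp _ hb.1.1
      have q4 := hBp _ hb.1.2
      simp only [Sigma.mk.injEq, heq_eq_eq] at hab
      ext
      · exact hab.2
      · have := ha.2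
        have := hb.2
        omega
  have h2 : ((A ×ˢ B).filter (fun a => ¬ a.1 < a.2)).card ≤ P.card := by
    apply card_le_card_of_injOn (fun a => (⟨(a.1 - a.2) / 2, a.2⟩ : (_ : ℕ) × ℕ))
    · intro a ha
      rw [mem_coe, mem_filter, mem_product] at ha
      obtain ⟨⟨ha1, ha2⟩, ha3⟩ := ha
      have r1 := hAr _ ha1
      have r2 := hBr _ ha2
      have q1 := hAp _ ha1
      have q2 := hBp _ ha2
      have hne' := hne _ ha1 _ ha2
      rw [mem_coe, hP, mem_sigma, mem_Icc]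
      refine ⟨⟨by show 1 ≤ (a.1 - a.2) / 2; omega, by show (a.1 - a.2) / 2 ≤ n / 2; omega⟩, ?_⟩
      show a.2 ∈ BB k n ((a.1 - a.2) / 2)
      unfold BB
      rw [mem_filter, mem_Icc]
      have e : a.2 + 2 * ((a.1 - a.2) / 2) = a.1 := by omega
      rw [e]
      refine ⟨⟨by omega, by omega⟩, by omega, ?_⟩
      rintro ⟨y, hy1, hy2, hy3, hy4⟩
      exact hbad _ ha1 _ ha2 y hy1 (by omega) hy2 ⟨hy4, hy3⟩
    · intro a ha b hb hab
      rw [mem_coe, mem_filter, mem_product] at ha hb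
      have q1 := hAp _ ha.1.1
      have q2 := hBp _ ha.1.2
      have q3 := hAp _ hb.1.1
      have q4 := hBp _ hb.1.2
      simp only [Sigma.mk.injEq, heq_eq_eq] at hab
      ext
      · have := ha.2
        have := hb.2
        omega
      · exact hab.2
  have h3 := card_filter_add_card_filter_not (s := A ×ˢ B) (fun a => a.1 < a.2)
  rw [card_product] at h3
  have h4 : (A.card : ℝ) * B.card ≤ 2 * (c ^ 2 / 4 * (n : ℝ) ^ 2) := by
    have h5 : ((A.card * B.card : ℕ) : ℝ) ≤ ((2 * P.card : ℕ) : ℝ) := by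
      exact_mod_cast (by omega : A.card * B.card ≤ 2 * P.card)
    push_cast at h5
    linarith
  have h5 : (c * n) * (c * n) ≤ (A.card : ℝ) * B.card := mul_le_mul hAc hBc (by positivity) (by positivity)
  have h6 : 0 < c ^ 2 * (n : ℝ) ^ 2 := by positivity
  nlinarith

theorem num_core : ∃ k n₀ : ℕ, 2 ≤ k ∧ 1000 ≤ n₀ ∧ ∀ n : ℕ, n₀ ≤ n →
    (∀ x : ℕ, 1 ≤ x → x ≤ n → ∃ y : ℕ, n ≤ 24 * y ∧ (NG k n).Adj x y) ∧
    ∀ x x' : ℕ, n ≤ 24 * x → x ≤ n → n ≤ 24 * x' → x' ≤ n → x % 2 = x' % 2 → ∃ p : (NG k n).Walk x x', p.length ≤ 6 := by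
  obtain ⟨c, hc, n1, h1⟩ := chen_core24
  obtain ⟨k, n2, hk, h2⟩ := pairs (c ^ 2 / 4) (by positivity)
  refine ⟨k, max (max n1 n2) 1000, hk, le_max_right _ _, ?_⟩
  intro n hn
  have b1 : n1 ≤ n := ((le_max_left _ _).trans (le_max_left _ _)).trans hn
  have b2 : n2 ≤ n := ((le_max_right _ _).trans (le_max_left _ _)).trans hn
  have b3 : 1000 ≤ n := (le_max_right _ _).trans hn
  obtain ⟨h3, h4⟩ := h1 n b1
  refine ⟨?_, ?_⟩
  · intro x hx1 hxn
    obtain ⟨y, hy1, hy2, hy3, hy4⟩ := h4 x hx1 hxn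
    refine ⟨y, hy1, ⟨hx1, hxn⟩, ⟨hy3, hy2⟩, ?_⟩
    rcases hy4 with hy4 | hy4
    · exact Or.inr (E3_Ek hk b3 hx1 hy4)
    · exact Or.inl (E3_Ek hk b3 hy3 hy4)
  · intro x x' hx hxn hx' hxn' hpar
    exact joined k n hk b3 c hc (h2 n b2) x x' hxn hxn' hpar (h3 x hx hxn) (h3 x' hx' hxn')

end Pool.Agent.Helper255.GC
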