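import Pool.Agent.Helper255.GC.FL

/-! Local factors of pairs. -/

set_option autoImplicit false

open Finset

namespace Pool.Agent.Helper255.GC

open Pool.Agent.H373R2.T7 (pz mem_pz PerB nuB sys_fund Vz Vz_low ev_log' ev_L')

/-- the shifts of one prime pair -/
def S2 (h p : ℕ) : Finset ℤ := {(p : ℤ), (p : ℤ) - h}

/-- the shifts of two prime pairs -/
def S4 (h p p' : ℕ) : Finset ℤ := {(p : ℤ), (p : ℤ) - h, (p' : ℤ), (p' : ℤ) - h}

/-- number of classes of one pair -/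
def nu2 (h l : ℕ) : ℕ := if l ∣ h then 1 else 2

/-- two pairs have a common class -/
def Col (h p p' l : ℕ) : Prop := (l : ℤ) ∣ p - p' ∨ (l : ℤ) ∣ (p : ℤ) - p' - h ∨ (l : ℤ) ∣ (p : ℤ) - p' + h

lemma S2_card (h p : ℕ) : (S2 h p).card ≤ 4 := by
  unfold S2
  exact card_le_two.trans (by norm_num)

lemma S4_card (h p p' : ℕ) : (S4 h p p').card ≤ 4 := by
  unfold S4
  exact card_le_four

lemma nu_S2 (h p l : ℕ) : nu (S2 h p) l ≤ nu2 h l := by
  classical
  unfold nu nu2 S2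
  rw [image_insert, image_singleton]
  split_ifs with hd
  · have h1 : (((p : ℤ) - h : ℤ) : ZMod l) = ((p : ℤ) : ZMod l) := by
      have h2 : ((h : ℤ) : ZMod l) = 0 := by
        rw [ZMod.intCast_zmod_eq_zero_iff_dvd]
        exact_mod_cast hd
      rw [Int.cast_sub, h2, sub_zero]
    rw [h1, insert_eq_of_mem (mem_singleton_self _)]
    exact le_of_eq (card_singleton _)
  · exact card_le_two

lemma nu2_le (h l : ℕ) : nu2 h l ≤ 2 := by
  unfold nu2
  split_ifs <;> norm_num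

lemma nu_le_card (S : Finset ℤ) (l : ℕ) : nu S l ≤ S.card := card_image_le

lemma cast_ne (l : ℕ) (a b : ℤ) (h : ¬ (l : ℤ) ∣ a - b) : (a : ZMod l) ≠ (b : ZMod l) := by
  intro he
  apply h
  rw [← ZMod.intCast_zmod_eq_zero_iff_dvd, Int.cast_sub, he, sub_self]

lemma nu_S4 (h p p' l : ℕ) (hc : ¬ Col h p p' l) : 2 * nu2 h l ≤ nu (S4 h p p') l := by
  classical
  unfold Col at hc
  push Not at hc
  obtain ⟨c1, c2, c3⟩ := hc
  have n1 : (((p : ℤ)) : ZMod l) ≠ ((p' : ℤ) : ZMod l) := cast_ne l _ _ c1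
  have n2 : (((p : ℤ)) : ZMod l) ≠ (((p' : ℤ) - h : ℤ) : ZMod l) := cast_ne l _ _ (by
    have e : (p : ℤ) - ((p' : ℤ) - h) = (p : ℤ) - p' + h := by ring
    rwa [e])
  have n3 : (((p : ℤ) - h : ℤ) : ZMod l) ≠ ((p' : ℤ) : ZMod l) := cast_ne l _ _ (by
    have e : (p : ℤ) - h - p' = (p : ℤ) - p' - h := by ring
    rwa [e])
  have n4 : (((p : ℤ) - h : ℤ) : ZMod l) ≠ (((p' : ℤ) - h : ℤ) : ZMod l) := cast_ne l _ _ (by
    have e : (p : ℤ) - h - ((p' : ℤ) - h) = (p : ℤ) - p' := by ring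
    rwa [e])
  unfold nu nu2 S4
  rw [image_insert, image_insert, image_insert, image_singleton]
  split_ifs with hd
  · -- at least two
    have hsub : ({((p : ℤ) : ZMod l), ((p' : ℤ) : ZMod l)} : Finset (ZMod l)) ⊆
        {((p : ℤ) : ZMod l), (((p : ℤ) - h : ℤ) : ZMod l), ((p' : ℤ) : ZMod l), (((p' : ℤ) - h : ℤ) : ZMod l)} := by
      intro x hx
      simp only [mem_insert, mem_singleton] at hx ⊢
      rcases hx with rfl | rfl
      · exact Or.inl rfl
      · exact Or.inr (Or.inr (Or.inl rfl))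
    have := card_le_card hsub
    rw [card_pair n1] at this
    omega
  · have n5 : (((p : ℤ)) : ZMod l) ≠ (((p : ℤ) - h : ℤ) : ZMod l) := cast_ne l _ _ (by
      have e : (p : ℤ) - ((p : ℤ) - h) = h := by ring
      rw [e]
      intro h1
      exact hd (by exact_mod_cast h1))
    have n6 : (((p' : ℤ)) : ZMod l) ≠ (((p' : ℤ) - h : ℤ) : ZMod l) := cast_ne l _ _ (by
      have e : (p' : ℤ) - ((p' : ℤ) - h) = h := by ring
      rw [e]
      intro h1
      exact hd (by exact_mod_cast h1))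
    rw [card_insert_of_notMem, card_insert_of_notMem, card_pair n6]
    · rw [mem_insert, mem_singleton]
      push Not
      exact ⟨n3, n4⟩
    · rw [mem_insert, mem_insert, mem_singleton]
      push Not
      exact ⟨n5, n1, n2⟩

/-- the loss at a prime -/
noncomputable def aa (l : ℕ) : ℝ := ((1 - 2 / (l : ℝ)) ^ 2)⁻¹

/-- the common factor -/
noncomputable def V2 (w z h : ℕ) : ℝ := ∏ l ∈ PP w z, (1 - (nu2 h l : ℝ) / l)

open Classical in
/-- the loss of a pair of pairs -/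
noncomputable def FF (w z h p p' : ℕ) : ℝ := ∏ l ∈ (PP w z).filter (fun l => Col h p p' l), aa l

lemma mem_PP {w z l : ℕ} : l ∈ PP w z ↔ (l ≤ z ∧ l.Prime) ∧ w < l := by
  unfold PP
  rw [mem_filter, mem_pz]

lemma V2_pos (w z h : ℕ) (hw : 4 ≤ w) : 0 < V2 w z h := by
  apply prod_pos
  intro l hl
  rw [mem_PP] at hl
  have hl5 : (5 : ℝ) ≤ l := by exact_mod_cast (by omega : 5 ≤ l)
  have h2 : (nu2 h l : ℝ) ≤ 2 := by exact_mod_cast nu2_le h l
  have : (nu2 h l : ℝ) / l ≤ 2 / 5 := by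
    rw [div_le_div_iff₀ (by linarith) (by norm_num)]
    nlinarith
  linarith

lemma V2_le_one (w z h : ℕ) (hw : 4 ≤ w) : V2 w z h ≤ 1 := by
  apply prod_le_one
  · intro l hl
    rw [mem_PP] at hl
    have hl5 : (5 : ℝ) ≤ l := by exact_mod_cast (by omega : 5 ≤ l)
    have h2 : (nu2 h l : ℝ) ≤ 2 := by exact_mod_cast nu2_le h l
    have : (nu2 h l : ℝ) / l ≤ 2 / 5 := by
      rw [div_le_div_iff₀ (by linarith) (by norm_num)]
      nlinarith
    linarith
  · intro l hl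
    have : (0 : ℝ) ≤ (nu2 h l : ℝ) / l := by positivity
    linarith

lemma single_low (w z h p : ℕ) (hw : 4 ≤ w) : V2 w z h ≤ ∏ l ∈ PP w z, (1 - (nu (S2 h p) l : ℝ) / l) := by
  apply prod_le_prod
  · intro l hl
    rw [mem_PP] at hl
    have hl5 : (5 : ℝ) ≤ l := by exact_mod_cast (by omega : 5 ≤ l)
    have h2 : (nu2 h l : ℝ) ≤ 2 := by exact_mod_cast nu2_le h l
    have : (nu2 h l : ℝ) / l ≤ 2 / 5 := by
      rw [div_le_div_iff₀ (by linarith) (by norm_num)]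
      nlinarith
    linarith
  · intro l hl
    have h1 : (nu (S2 h p) l : ℝ) ≤ nu2 h l := by exact_mod_cast nu_S2 h p l
    have : (nu (S2 h p) l : ℝ) / l ≤ (nu2 h l : ℝ) / l := by gcongr
    linarith

lemma one_le_aa (l : ℕ) (hl : 5 ≤ l) : 1 ≤ aa l := by
  unfold aa
  have hl5 : (5 : ℝ) ≤ l := by exact_mod_cast hl
  have h1 : 2 / (l : ℝ) ≤ 2 / 5 := by
    apply div_le_div_of_nonneg_left (by norm_num) (by norm_num) hl5
  have h2 : 0 < 2 / (l : ℝ) := by positivity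
  rw [one_le_inv₀ (by nlinarith)]
  nlinarith

lemma aa_le (l : ℕ) (hl : 5 ≤ l) : aa l ≤ 1 + 9 / l := by
  unfold aa
  have hl5 : (5 : ℝ) ≤ l := by exact_mod_cast hl
  obtain ⟨u, hu⟩ : ∃ u, u = 1 / (l : ℝ) := ⟨_, rfl⟩
  have hu0 : 0 < u := by rw [hu]; positivity
  have hu5 : u ≤ 1 / 5 := by
    rw [hu]
    apply div_le_div_of_nonneg_left (by norm_num) (by norm_num) hl5
  have e1 : 2 / (l : ℝ) = 2 * u := by rw [hu]; ring
  have e2 : 9 / (l : ℝ) = 9 * u := by rw [hu]; ring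
  rw [e1, e2, inv_le_comm₀ (by nlinarith) (by linarith), inv_eq_one_div, div_le_iff₀ (by linarith)]
  nlinarith [mul_pos hu0 hu0, mul_nonneg hu0.le (by linarith : (0 : ℝ) ≤ 1 / 5 - u), mul_nonneg (mul_pos hu0 hu0).le (by linarith : (0 : ℝ) ≤ 1 / 5 - u)]

lemma double_up (w z h p p' : ℕ) (hw : 4 ≤ w) :
    ∏ l ∈ PP w z, (1 - (nu (S4 h p p') l : ℝ) / l) ≤ V2 w z h ^ 2 * FF w z h p p' := by
  classical
  unfold V2 FF
  rw [← prod_pow, prod_filter, ← prod_mul_distrib]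
  apply prod_le_prod
  · intro l hl
    rw [mem_PP] at hl
    have hl5 : (5 : ℝ) ≤ l := by exact_mod_cast (by omega : 5 ≤ l)
    have h2 : (nu (S4 h p p') l : ℝ) ≤ 4 := by exact_mod_cast (nu_le_card _ l).trans (S4_card h p p')
    have : (nu (S4 h p p') l : ℝ) / l ≤ 4 / 5 := by
      rw [div_le_div_iff₀ (by linarith) (by norm_num)]
      nlinarith
    linarith
  · intro l hl
    rw [mem_PP] at hl
    have hl5' : 5 ≤ l := by omega
    have hl5 : (5 : ℝ) ≤ l := by exact_mod_cast hl5'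
    have hl0 : (0 : ℝ) < l := by linarith
    have h2 : (nu2 h l : ℝ) ≤ 2 := by exact_mod_cast nu2_le h l
    have h20 : (0 : ℝ) ≤ nu2 h l := Nat.cast_nonneg _
    split_ifs with hc
    · have h3 : (0 : ℝ) ≤ (nu (S4 h p p') l : ℝ) / l := by positivity
      have h4 : 1 ≤ (1 - (nu2 h l : ℝ) / l) ^ 2 * aa l := by
        unfold aa
        have h5 : (nu2 h l : ℝ) / l ≤ 2 / l := by gcongr
        have h6 : 2 / (l : ℝ) ≤ 2 / 5 := div_le_div_of_nonneg_left (by norm_num) (by norm_num) hl5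
        have h7 : 0 < 1 - 2 / (l : ℝ) := by linarith
        have h8 : (1 - 2 / (l : ℝ)) ^ 2 ≤ (1 - (nu2 h l : ℝ) / l) ^ 2 := pow_le_pow_left₀ h7.le (by linarith) 2
        rw [← div_eq_mul_inv, le_div_iff₀ (by positivity), one_mul]
        exact h8
      linarith
    · rw [mul_one]
      have h3 : (2 * (nu2 h l : ℝ)) ≤ nu (S4 h p p') l := by exact_mod_cast nu_S4 h p p' l hc
      have h4 : (2 * (nu2 h l : ℝ)) / l ≤ (nu (S4 h p p') l : ℝ) / l := by gcongr
      have h5 : (2 * (nu2 h l : ℝ)) / l = 2 * ((nu2 h l : ℝ) / l) := by ring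
      nlinarith [sq_nonneg ((nu2 h l : ℝ) / l)]

lemma prod_mono_sub (A B : Finset ℕ) (hAB : A ⊆ B) (f : ℕ → ℝ) (hf : ∀ l ∈ B, 1 ≤ f l) :
    ∏ l ∈ A, f l ≤ ∏ l ∈ B, f l := by
  classical
  rw [← prod_sdiff hAB]
  have h1 : 1 ≤ ∏ l ∈ B \ A, f l := by
    rw [← prod_const_one (s := B \ A)]
    apply prod_le_prod (fun _ _ => zero_le_one)
    intro l hl
    exact hf l (mem_sdiff.1 hl).1
  have h2 : 0 ≤ ∏ l ∈ A, f l := prod_nonneg (fun l hl => le_trans zero_le_one (hf l (hAB hl)))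
  nlinarith

/-- Mertens -/
lemma aa_prod : ∃ w₀ : ℕ, 4 ≤ w₀ ∧ ∀ w z y : ℕ, w₀ ≤ w → w < y →
    ∏ l ∈ (PP w z).filter (fun l => l ≤ y), aa l ≤ √(y : ℝ) := by
  classical
  obtain ⟨C, N0, hV⟩ := Vz_low
  obtain ⟨x1, h1⟩ := ev_log' (C * 6) 1
  refine ⟨max N0 (max x1 4), by simp, fun w z y hw hy => ?_⟩
  have b1 : N0 ≤ y := by have := (le_max_left _ _).trans hw; omega
  have b2 : x1 ≤ y := by have := ((le_max_left _ _).trans (le_max_right _ _)).trans hw; omega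
  have b3 : 4 ≤ w := ((le_max_right _ _).trans (le_max_right _ _)).trans hw
  have hVy := hV y b1
  have hy1 : (1 : ℝ) < y := by exact_mod_cast (by omega : 1 < y)
  have hL : 0 < Real.log y := Real.log_pos hy1
  have hLC : 0 < Real.log y ^ C := by positivity
  have hVpos : 0 < Vz y := lt_of_lt_of_le (by positivity) hVy
  have h2 : ∀ l ∈ (PP w z).filter (fun l => l ≤ y), aa l ≤ ((1 - 1 / (l : ℝ)) ^ 6)⁻¹ := by
    intro l hl
    rw [mem_filter, mem_PP] at hl
    have hl5 : (5 : ℝ) ≤ l := by exact_mod_cast (by omega : 5 ≤ l)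
    unfold aa
    obtain ⟨u, hu⟩ : ∃ u, u = 1 / (l : ℝ) := ⟨_, rfl⟩
    have hu0 : 0 < u := by rw [hu]; positivity
    have hu5 : u ≤ 1 / 5 := by
      rw [hu]
      apply div_le_div_of_nonneg_left (by norm_num) (by norm_num) hl5
    have e1 : 2 / (l : ℝ) = 2 * u := by rw [hu]; ring
    rw [← hu, e1]
    have h3 : (1 - u) ^ 3 ≤ 1 - 2 * u := by nlinarith [mul_pos hu0 hu0, mul_pos (mul_pos hu0 hu0) hu0, mul_nonneg hu0.le (by linarith : (0 : ℝ) ≤ 1 / 5 - u)]
    have h4 : 0 < (1 - u) ^ 3 := pow_pos (by linarith) 3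
    have h5 : (1 - u) ^ 6 ≤ (1 - 2 * u) ^ 2 := by
      calc (1 - u) ^ 6 = ((1 - u) ^ 3) ^ 2 := by ring
        _ ≤ _ := pow_le_pow_left₀ h4.le h3 2
    exact inv_anti₀ (pow_pos (by linarith) 6) h5
  have h3 : ∏ l ∈ (PP w z).filter (fun l => l ≤ y), aa l ≤ ∏ l ∈ (PP w z).filter (fun l => l ≤ y), ((1 - 1 / (l : ℝ)) ^ 6)⁻¹ := by
    apply prod_le_prod _ h2
    intro l hl
    rw [mem_filter, mem_PP] at hl
    exact le_trans zero_le_one (one_le_aa l (by omega))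
  have h4 : ∏ l ∈ (PP w z).filter (fun l => l ≤ y), ((1 - 1 / (l : ℝ)) ^ 6)⁻¹ ≤ ∏ l ∈ pz y, ((1 - 1 / (l : ℝ)) ^ 6)⁻¹ := by
    apply prod_mono_sub
    · intro l hl
      rw [mem_filter, mem_PP] at hl
      rw [mem_pz]
      exact ⟨hl.2, hl.1.1.2⟩
    · intro l hl
      rw [mem_pz] at hl
      have hl2 : (2 : ℝ) ≤ l := by exact_mod_cast hl.2.two_le
      have h5 : 1 / (l : ℝ) ≤ 1 / 2 := div_le_div_of_nonneg_left (by norm_num) (by norm_num) hl2
      have h6 : 0 < 1 / (l : ℝ) := by positivity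
      rw [one_le_inv₀ (pow_pos (by linarith) 6)]
      exact pow_le_one₀ (by linarith) (by linarith)
  have h5 : ∏ l ∈ pz y, ((1 - 1 / (l : ℝ)) ^ 6)⁻¹ = (Vz y ^ 6)⁻¹ := by
    unfold Vz
    rw [← prod_pow, ← prod_inv_distrib]
  have h6 : (Vz y ^ 6)⁻¹ ≤ Real.log y ^ (C * 6) := by
    rw [pow_mul, inv_le_comm₀ (by positivity) (by positivity)]
    calc ((Real.log y ^ C) ^ 6)⁻¹ = (1 / Real.log y ^ C) ^ 6 := by rw [one_div, inv_pow]
      _ ≤ Vz y ^ 6 := pow_le_pow_left₀ (by positivity) hVy 6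
  have h7 := h1 y b2
  rw [one_mul] at h7
  linarith

open Classical in
/-- the loss is a linear functional of the common classes -/
lemma FF_le (w z h p p' : ℕ) (hw : 4 ≤ w) (hA : ∀ y : ℕ, w < y → ∏ l ∈ (PP w z).filter (fun l => l ≤ y), aa l ≤ √(y : ℝ)) :
    FF w z h p p' ≤ 1 + ∑ l ∈ (PP w z).filter (fun l => Col h p p' l), 9 / √(l : ℝ) := by
  classical
  unfold FF
  obtain ⟨B, hB⟩ : ∃ B, B = (PP w z).filter (fun l => Col h p p' l) := ⟨_, rfl⟩
  have hBs : B ⊆ PP w z := by rw [hB]; exact filter_subset _ _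
  rw [← hB]
  have h1 := Finset.prod_add_ordered B (fun _ => (1 : ℝ)) (fun l => aa l - 1)
  simp only [add_sub_cancel, prod_const_one, mul_one] at h1
  rw [h1]
  apply add_le_add le_rfl
  apply sum_le_sum
  intro l hl
  have hlP := hBs hl
  rw [mem_PP] at hlP
  have hl5 : 5 ≤ l := by omega
  have hlr : (5 : ℝ) ≤ l := by exact_mod_cast hl5
  have h2 : ∏ j ∈ B.filter (fun j => j < l), aa j ≤ √(l : ℝ) := by
    refine le_trans (prod_mono_sub _ ((PP w z).filter (fun j => j ≤ l)) ?_ aa ?_) (hA l hlP.2)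
    · intro j hj
      rw [mem_filter] at hj ⊢
      exact ⟨hBs hj.1, hj.2.le⟩
    · intro j hj
      rw [mem_filter, mem_PP] at hj
      exact one_le_aa j (by omega)
  have h3 : 0 ≤ ∏ j ∈ B.filter (fun j => j < l), aa j := by
    apply prod_nonneg
    intro j hj
    rw [mem_filter] at hj
    have := hBs hj.1
    rw [mem_PP] at this
    exact le_trans zero_le_one (one_le_aa j (by omega))
  have h4 := aa_le l hl5
  have h5 := one_le_aa l hl5
  have hs : 0 < √(l : ℝ) := Real.sqrt_pos.2 (by linarith)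
  have hss : √(l : ℝ) * √(l : ℝ) = l := Real.mul_self_sqrt (by linarith)
  calc (aa l - 1) * ∏ j ∈ B.filter (fun j => j < l), aa j ≤ (9 / l) * √(l : ℝ) := by
        apply mul_le_mul (by linarith) h2 h3 (by positivity)
    _ = 9 / √(l : ℝ) := by
        rw [div_mul_eq_mul_div, div_eq_div_iff (by linarith) hs.ne']
        rw [mul_assoc, hss]

end Pool.Agent.Helper255.GC
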