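import Pool.Agent.Helper255.GC.Cls

/-! Almost all pairs of numbers of the same parity have a common neighbour. -/

set_option autoImplicit false

open Finset

namespace Pool.Agent.Helper255.GC

open Pool.Agent.H373R2.T7 (pz mem_pz PerB nuB sys_fund Vz Vz_low ev_log' ev_L')
open Pool.Agent.TH935.DF (HC cc)

/-- `x - y` is an odd prime, `x + y` is odd and has at most `k` prime factors -/
def Ek (k x y : ℕ) : Prop :=
  y < x ∧ (x - y).Prime ∧ x - y ≠ 2 ∧ Odd (x + y) ∧ (x + y).primeFactorsList.length ≤ k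

/-- a point outside the sieve has a common neighbour -/
lemma common (w z K n h c y₁ y₂ s j p : ℕ) (hw : 4 ≤ w) (hwz : w < z) (hzn : n < (z + 1) ^ K) (hh : Even h)
    (hcl : ∀ l : ℕ, l.Prime → l ≤ w → ¬ ((l ^ 2 : ℕ) : ℤ) ∣ 2 * (s : ℤ) - c ∧ ¬ ((l ^ 2 : ℕ) : ℤ) ∣ 2 * (s : ℤ) - c + h)
    (hp : p ∈ TT (qq w) c h y₁ y₂) (hy1 : 2 ≤ y₁) (hbig : y₂ < s + qq w * j) (hle : s + qq w * j + h ≤ n)
    (hG : Gd w z s (qq w) (S2 h p) j) :
    ∃ y, 1 ≤ y ∧ y < s + qq w * j ∧ Ek (w + K) (s + qq w * j) y ∧ Ek (w + K) (s + qq w * j + h) y := by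
  obtain ⟨x, hx⟩ : ∃ x, x = s + qq w * j := ⟨_, rfl⟩
  rw [← hx] at hbig hle ⊢
  unfold TT at hp
  rw [mem_filter, mem_Ioc] at hp
  obtain ⟨⟨hp1, hp2⟩, hpp, hpph, hmod⟩ := hp
  have hpodd : Odd p := hpp.odd_of_ne_two (by omega)
  obtain ⟨i, hi⟩ := hpodd
  obtain ⟨k, hk⟩ := hh
  have hxz : (x : ℤ) = s + qq w * j := by rw [hx]; push_cast; ring
  have hpow : 2 * n < (z + 1) ^ (K + 1) := by
    rw [pow_succ]
    nlinarith
  -- the class modulo squares
  have hsqp : ∀ l : ℕ, l.Prime → l ≤ w → ((l ^ 2 : ℕ) : ℤ) ∣ (2 * (s : ℤ) - c) - (2 * x - p) := by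
    intro l hl hlw
    have h1 : ((l ^ 2 : ℕ) : ℤ) ∣ (qq w : ℤ) := by exact_mod_cast dvd_qq w l hl hlw
    have h2 : ((qq w : ℕ) : ℤ) ∣ (p : ℤ) - c := ((Int.natCast_modEq_iff.2 hmod).symm).dvd
    have e : (2 * (s : ℤ) - c) - (2 * x - p) = ((p : ℤ) - c) + (qq w : ℤ) * (-2 * j) := by rw [hxz]; ring
    rw [e]
    exact dvd_add (h1.trans h2) (h1.trans (Dvd.intro _ rfl))
  have hm1 : (x + (x - p) : ℕ) = 2 * x - p := by omega
  have hm2 : (x + h + (x - p) : ℕ) = 2 * x - p + h := by omega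
  have hz1 : ((2 * x - p : ℕ) : ℤ) = 2 * x - p := by omega
  have hz2 : ((2 * x - p + h : ℕ) : ℤ) = 2 * x - p + h := by omega
  refine ⟨x - p, by omega, by omega, ⟨by omega, ?_, by omega, ?_, ?_⟩, ⟨by omega, ?_, ?_, ?_, ?_⟩⟩
  · have e : x - (x - p) = p := by omega
    rw [e]
    exact hpp
  · rw [hm1, Nat.odd_iff]
    omega
  · rw [hm1]
    apply omega_le w z K (2 * x - p) (by omega) (by omega)
    · intro l hl hlw hd
      have h1 : ((l ^ 2 : ℕ) : ℤ) ∣ 2 * (x : ℤ) - p := by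
        rw [← hz1]
        exact_mod_cast hd
      have h2 := dvd_add (hsqp l hl hlw) h1
      rw [sub_add_cancel] at h2
      exact (hcl l hl hlw).1 h2
    · intro l hl hwl hlz hd
      have h1 := hG l (mem_pz.2 ⟨hlz, hl⟩) hwl (p : ℤ) (by unfold S2; simp)
      apply h1
      unfold lf
      rw [← hxz, ← hz1]
      exact_mod_cast hd
  · have e : x + h - (x - p) = p + h := by omega
    rw [e]
    exact hpph
  · omega
  · rw [hm2, Nat.odd_iff]
    omega
  · rw [hm2]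
    apply omega_le w z K (2 * x - p + h) (by omega) (by omega)
    · intro l hl hlw hd
      have h1 : ((l ^ 2 : ℕ) : ℤ) ∣ 2 * (x : ℤ) - p + h := by
        rw [← hz2]
        exact_mod_cast hd
      have h2 := dvd_add (hsqp l hl hlw) h1
      have e : (2 * (s : ℤ) - c) - (2 * x - p) + (2 * (x : ℤ) - p + h) = 2 * s - c + h := by ring
      rw [e] at h2
      exact (hcl l hl hlw).2 h2
    · intro l hl hwl hlz hd
      have h1 := hG l (mem_pz.2 ⟨hlz, hl⟩) hwl ((p : ℤ) - h) (by unfold S2; simp)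
      apply h1
      unfold lf
      have e : 2 * ((s : ℤ) + (qq w : ℤ) * j) - ((p : ℤ) - h) = ((2 * x - p + h : ℕ) : ℤ) := by
        rw [hz2, ← hxz]
        ring
      rw [e]
      exact_mod_cast hd

open Classical in
/-- the points without a common neighbour at distance `2 m` -/
noncomputable def BB (k n m : ℕ) : Finset ℕ :=
  (Icc 1 n).filter (fun x => x + 2 * m ≤ n ∧ ¬ ∃ y, 1 ≤ y ∧ y < x ∧ Ek k x y ∧ Ek k (x + 2 * m) y)

theorem pairs (ε : ℝ) (hε : 0 < ε) : ∃ k n₀ : ℕ, 2 ≤ k ∧ ∀ n : ℕ, n₀ ≤ n →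
    ∑ m ∈ Icc 1 (n / 2), ((BB k n m).card : ℝ) ≤ ε * (n : ℝ) ^ 2 := by
  classical
  obtain ⟨ε₁, hε₁⟩ : ∃ e, e = min (ε / 32) (1 / 2) := ⟨_, rfl⟩
  have he0 : 0 < ε₁ := by rw [hε₁]; exact lt_min (by positivity) (by norm_num)
  have he1 : ε₁ ≤ ε / 32 := by rw [hε₁]; exact min_le_left _ _
  have he2 : ε₁ ≤ 1 / 2 := by rw [hε₁]; exact min_le_right _ _
  obtain ⟨w, hw4, hcore⟩ := core ε₁ he0 he2
  obtain ⟨q, hq⟩ : ∃ q, q = qq w := ⟨_, rfl⟩
  have hq1 : 1 ≤ q := by rw [hq]; exact qq_pos w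
  have hqr : (1 : ℝ) ≤ q := by exact_mod_cast hq1
  obtain ⟨δ, hδ⟩ : ∃ d, d = min (ε / 32) (1 / (8 * (q : ℝ))) := ⟨_, rfl⟩
  have hd0 : 0 < δ := by rw [hδ]; exact lt_min (by positivity) (by positivity)
  have hd1 : δ ≤ ε / 32 := by rw [hδ]; exact min_le_left _ _
  have hd2 : δ ≤ 1 / (8 * (q : ℝ)) := by rw [hδ]; exact min_le_right _ _
  have hd3 : δ ≤ 1 / 8 := by
    refine hd2.trans ?_
    apply one_div_le_one_div_of_le (by norm_num)
    linarith
  obtain ⟨K, n1, hK, hmain⟩ := hcore w le_rfl q hq1 (fun l hl hwl => by rw [hq]; exact qq_big w l hl hwl) δ hd0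
  obtain ⟨n2, hn2⟩ := bad_h_few
  obtain ⟨n3, hn3⟩ := ev_L' (max 1 (4 / ε))
  refine ⟨w + K, max (max n1 n2) (max n3 (max ⌈4 / δ⌉₊ ⌈4 * q / ε⌉₊)), by omega, ?_⟩
  intro n hn
  have b1 : n1 ≤ n := ((le_max_left _ _).trans (le_max_left _ _)).trans hn
  have b2 : n2 ≤ n := ((le_max_right _ _).trans (le_max_left _ _)).trans hn
  have b3 : n3 ≤ n := ((le_max_left _ _).trans (le_max_right _ _)).trans hn
  have b4 : ⌈4 / δ⌉₊ ≤ n := ((le_max_left _ _).trans ((le_max_right _ _).trans (le_max_right _ _))).trans hn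
  have b5 : ⌈4 * q / ε⌉₊ ≤ n := ((le_max_right _ _).trans ((le_max_right _ _).trans (le_max_right _ _))).trans hn
  have c4 : 4 / δ ≤ n := (Nat.le_ceil _).trans (by exact_mod_cast b4)
  have c5 : 4 * q / ε ≤ n := (Nat.le_ceil _).trans (by exact_mod_cast b5)
  have hδn : 4 ≤ δ * n := by
    rw [div_le_iff₀ hd0] at c4
    linarith
  have hn0 : (0 : ℝ) < n := by
    by_contra hcon
    push Not at hcon
    nlinarith
  obtain ⟨L, hL⟩ : ∃ L, L = Real.log (n : ℝ) := ⟨_, rfl⟩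
  have a3 := hn3 n b3
  rw [← hL] at a3
  have hL1 : 1 ≤ L := (le_max_left _ _).trans a3
  have hLε : 4 / ε ≤ L := (le_max_right _ _).trans a3
  obtain ⟨z, hwz, hzn, hnz, hsieve⟩ := hmain n b1
  -- the window
  obtain ⟨y, hy⟩ : ∃ y, y = ⌈δ * n⌉₊ := ⟨_, rfl⟩
  have hy1 : δ * n ≤ y := by rw [hy]; exact Nat.le_ceil _
  have hy2 : (y : ℝ) < δ * n + 1 := by rw [hy]; exact Nat.ceil_lt_add_one (by positivity)
  have hy3 : (4 : ℝ) ≤ y := hδn.trans hy1
  have hy4 : 4 ≤ y := by exact_mod_cast hy3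
  have hyn : 2 * y ≤ n := by
    have h1 : (2 : ℝ) * y ≤ n := by nlinarith
    exact_mod_cast h1
  -- one good difference
  have hgood : ∀ m ∈ Icc 1 (n / 2), HC (1 / 2) 1 5 1 n (2 * m) → ((BB (w + K) n m).card : ℝ) ≤ 4 * δ * n + q + 8 * ε₁ * n := by
    intro m hm hHC
    rw [mem_Icc] at hm
    obtain ⟨X, hX⟩ : ∃ X, X = n / q := ⟨_, rfl⟩
    have hXn : (X : ℝ) * q ≤ n := by
      have : X * q ≤ n := by rw [hX]; exact Nat.div_mul_le_self n q
      exact_mod_cast this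
    have hXδ : δ * n ≤ X := by
      have h1 : n < q * (X + 1) := by
        rw [hX]
        have := Nat.lt_mul_div_succ n hq1
        exact this
      have h2 : (n : ℝ) < q * (X + 1) := by exact_mod_cast h1
      have h3 : δ * n * (8 * q) ≤ n := by
        calc δ * n * (8 * q) ≤ 1 / (8 * (q : ℝ)) * n * (8 * q) := by gcongr
          _ = n := by field_simp
      have h4 : δ * n * q * 8 ≤ q * (X + 1) := by nlinarith
      have h5 : δ * n * 8 ≤ X + 1 := by
        have hq0 : (0 : ℝ) < q := by linarith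
        have : q * (δ * n * 8) ≤ q * (X + 1) := by nlinarith
        exact le_of_mul_le_mul_left this hq0
      linarith
    have hex : ∀ r : ℕ, ∃ c : ℕ, Nat.Coprime c q ∧ Nat.Coprime (c + 2 * m) q ∧
        ∀ l : ℕ, l.Prime → l ≤ w → ¬ ((l ^ 2 : ℕ) : ℤ) ∣ 2 * ((2 * y + r : ℕ) : ℤ) - c ∧
          ¬ ((l ^ 2 : ℕ) : ℤ) ∣ 2 * ((2 * y + r : ℕ) : ℤ) - c + (2 * m : ℕ) := by
      intro r
      rw [hq]
      exact exists_class w ((2 * y + r : ℕ) : ℤ) (2 * m) (even_two_mul m)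
    choose f hf using hex
    obtain ⟨Z, hZ⟩ : ∃ Z : ℕ → Finset ℕ, Z = fun r => (Icc 1 X).filter (fun j => ∀ p ∈ TT q (f r) (2 * m) y (2 * y),
      ¬ Gd w z (2 * y + r) q (S2 (2 * m) p) j) := ⟨_, rfl⟩
    have hZc : ∀ r, ((Z r).card : ℝ) ≤ 8 * ε₁ * X := by
      intro r
      obtain ⟨h1, h2, -⟩ := hf r
      rw [hZ]
      have := hsieve (2 * m) (f r) y (2 * y) (by omega) (by omega) h1 h2 (by omega) hyn hy1 (by push_cast; linarith) hHC
        (2 * y + r) X hXδ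
      convert this using 3
    have hsub : BB (w + K) n m ⊆ Icc 1 (2 * y + q) ∪ (range q).biUnion (fun r => (Z r).image (fun j => 2 * y + r + q * j)) := by
      intro x hx
      unfold BB at hx
      rw [mem_filter, mem_Icc] at hx
      obtain ⟨⟨hx1, hxn⟩, hx2, hx3⟩ := hx
      rw [mem_union, mem_Icc, mem_biUnion]
      rcases Nat.lt_or_ge (2 * y + q) x with hlt | hge
      · right
        obtain ⟨r, hr⟩ : ∃ r, r = (x - 2 * y) % q := ⟨_, rfl⟩
        obtain ⟨j, hj⟩ : ∃ j, j = (x - 2 * y) / q := ⟨_, rfl⟩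
        have hdm := Nat.mod_add_div (x - 2 * y) q
        rw [← hr, ← hj] at hdm
        have hrq : r < q := by rw [hr]; exact Nat.mod_lt _ (by omega)
        have hxe : x = 2 * y + r + q * j := by omega
        have hj1 : 1 ≤ j := by
          rw [hj]
          exact (Nat.one_le_div_iff (by omega)).2 (by omega)
        have hjX : j ≤ X := by
          rw [hj, hX]
          exact Nat.div_le_div_right (by omega)
        refine ⟨r, mem_range.2 hrq, ?_⟩
        rw [mem_image]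
        refine ⟨j, ?_, hxe.symm⟩
        rw [hZ, mem_filter, mem_Icc]
        refine ⟨⟨hj1, hjX⟩, ?_⟩
        intro p hp hG
        apply hx3
        have hcm := common w z K n (2 * m) (f r) y (2 * y) (2 * y + r) j p hw4 hwz hnz (even_two_mul m) (hf r).2.2
          (by rw [← hq]; exact hp) (by omega) (by rw [← hq]; omega) (by rw [← hq]; omega) (by rw [← hq]; exact hG)
        rw [← hq, ← hxe] at hcm
        exact hcm
      · left
        omega
    have h1 := card_le_card hsub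
    have h2 := card_union_le (Icc 1 (2 * y + q)) ((range q).biUnion (fun r => (Z r).image (fun j => 2 * y + r + q * j)))
    have h3 : ((range q).biUnion (fun r => (Z r).image (fun j => 2 * y + r + q * j))).card ≤ ∑ r ∈ range q, (Z r).card := by
      refine card_biUnion_le.trans ?_
      apply sum_le_sum
      intro r _
      exact card_image_le
    rw [Nat.card_Icc, Nat.add_sub_cancel] at h2
    have h4 : ((BB (w + K) n m).card : ℝ) ≤ (2 * y + q) + ∑ r ∈ range q, ((Z r).card : ℝ) := by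
      have : (BB (w + K) n m).card ≤ (2 * y + q) + ∑ r ∈ range q, (Z r).card := by omega
      exact_mod_cast this
    have h5 : ∑ r ∈ range q, ((Z r).card : ℝ) ≤ 8 * ε₁ * n := by
      calc ∑ r ∈ range q, ((Z r).card : ℝ) ≤ ∑ r ∈ range q, 8 * ε₁ * X := sum_le_sum (fun r _ => hZc r)
        _ = 8 * ε₁ * (X * q) := by rw [sum_const, card_range, nsmul_eq_mul]; ring
        _ ≤ 8 * ε₁ * n := by gcongr
    have h6 : (2 : ℝ) * y ≤ 4 * δ * n := by nlinarith
    linarith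
  -- the exceptional differences
  obtain ⟨S, hS⟩ : ∃ S, S = (Icc 1 (n / 2)).filter (fun m => ¬ HC (1 / 2) 1 5 1 n (2 * m)) := ⟨_, rfl⟩
  have hSc := hn2 n b2 S (by rw [hS]; exact filter_subset _ _) (fun x hx => by rw [hS, mem_filter] at hx; exact hx.2)
  rw [← hL] at hSc
  have hBBn : ∀ m, ((BB (w + K) n m).card : ℝ) ≤ n := by
    intro m
    have : (BB (w + K) n m).card ≤ n := by
      unfold BB
      exact (card_filter_le _ _).trans (by rw [Nat.card_Icc, Nat.add_sub_cancel])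
    exact_mod_cast this
  have hsplit : ∑ m ∈ Icc 1 (n / 2), ((BB (w + K) n m).card : ℝ) ≤
      (S.card : ℝ) * n + ∑ m ∈ Icc 1 (n / 2), (4 * δ * n + q + 8 * ε₁ * n) := by
    rw [← sum_filter_add_sum_filter_not (Icc 1 (n / 2)) (fun m => ¬ HC (1 / 2) 1 5 1 n (2 * m)) (fun m => ((BB (w + K) n m).card : ℝ))]
    rw [← hS]
    apply add_le_add
    · calc ∑ m ∈ S, ((BB (w + K) n m).card : ℝ) ≤ ∑ m ∈ S, (n : ℝ) := sum_le_sum (fun m _ => hBBn m)
        _ = _ := by rw [sum_const, nsmul_eq_mul]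
    · refine le_trans (sum_le_sum (fun m hm => ?_)) (sum_le_sum_of_subset_of_nonneg (filter_subset _ _) (fun _ _ _ => by positivity))
      rw [mem_filter, not_not] at hm
      exact hgood m hm.1 hm.2
  refine hsplit.trans ?_
  rw [sum_const, nsmul_eq_mul, Nat.card_Icc, Nat.add_sub_cancel]
  have h1 : (((n / 2 : ℕ)) : ℝ) ≤ n / 2 := Nat.cast_div_le
  have h2 : (S.card : ℝ) * n ≤ ε / 4 * (n : ℝ) ^ 2 := by
    have h3 : (n : ℝ) / L ≤ ε / 4 * n := by
      rw [div_le_iff₀ (by linarith)]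
      rw [div_le_iff₀ hε] at hLε
      nlinarith
    calc (S.card : ℝ) * n ≤ (ε / 4 * n) * n := mul_le_mul_of_nonneg_right (hSc.trans h3) hn0.le
      _ = _ := by ring
  have h3 : (((n / 2 : ℕ)) : ℝ) * (4 * δ * n + q + 8 * ε₁ * n) ≤ n / 2 * (4 * (ε / 32) * n + ε / 4 * n + 8 * (ε / 32) * n) := by
    apply mul_le_mul h1 _ (by positivity) (by positivity)
    have h4 : (q : ℝ) ≤ ε / 4 * n := by
      rw [div_le_iff₀ hε] at c5
      linarith
    have h5 : 4 * δ * n ≤ 4 * (ε / 32) * n := by gcongr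
    have h6 : 8 * ε₁ * n ≤ 8 * (ε / 32) * n := by gcongr
    linarith
  nlinarith [mul_pos hε (mul_pos hn0 hn0)]

end Pool.Agent.Helper255.GC
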